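import Pool.Agent.H774.IS.Main
import Pool.Graph.R_pool_sql_team_seeded_1acbe0a2.Y387.MD.Main

/-!
# First order deformations are invariant under a regular group of symmetries
-/

set_option autoImplicit false

open Finset Filter Topology

namespace Pool.Agent.H774.IS

open Pool.Agent.Y387.SF Pool.Agent.Y387.MD

section General

variable {V : Type*} [NormedAddCommGroup V] [InnerProductSpace ℂ V] [FiniteDimensional ℂ V]
  {ι : Type*} [Fintype ι] [DecidableEq ι] {x : ι → V} {d : ℕ}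

/-- the derivative of the triple products in terms of the derivative of the Gram matrix -/
noncomputable def dtp (x : ι → V) (h : ι → ι → ℂ) (i j k : ι) : ℂ :=
  h i j * gm x j k * gm x k i + gm x i j * h j k * gm x k i + gm x i j * gm x j k * h k i

omit [FiniteDimensional ℂ V] in
theorem dtp_inv (hx : IsEtf d x) {U : V ≃ₗᵢ[ℂ] V} {π : Equiv.Perm ι} (hU : Ind x U π)
    {h : ι → ι → ℂ} {z : EuclideanSpace ℂ (ι × ι)} {θ : ι → ℂ}
    (hzπ : ∀ i j, z (π i, π j) = z (i, j))
    (hθ : ∀ i j, gm x i j * h j i = (θ i - θ j) * (gm x i j * gm x j i) +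
      (z (i, j) - (starRingEnd ℂ) (z (i, j)))) (i j k : ι) :
    dtp x h (π i) (π j) (π k) = dtp x h i j k := by
  have hne : ∀ i j, gm x i j ≠ 0 := fun i j => hx.ne_zero i j
  have key : ∀ i j k, dtp x h i j k * ((gm x i j * gm x j i) * (gm x j k * gm x k j) *
      (gm x k i * gm x i k)) = tp x i j k * (
        (z (j, i) - (starRingEnd ℂ) (z (j, i))) * (gm x j k * gm x k j) * (gm x k i * gm x i k) +
        (z (k, j) - (starRingEnd ℂ) (z (k, j))) * (gm x i j * gm x j i) * (gm x k i * gm x i k) +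
        (z (i, k) - (starRingEnd ℂ) (z (i, k))) * (gm x i j * gm x j i) *
          (gm x j k * gm x k j)) := by
    intro i j k
    have a1 := hθ j i
    have a2 := hθ k j
    have a3 := hθ i k
    unfold tp dtp
    linear_combination (gm x i j * gm x j k * gm x k i) * ((gm x j k * gm x k j) *
      (gm x k i * gm x i k) * a1 + (gm x i j * gm x j i) * (gm x k i * gm x i k) * a2 +
      (gm x i j * gm x j i) * (gm x j k * gm x k j) * a3)
  have h5 := key (π i) (π j) (π k)
  rw [hzπ, hzπ, hzπ, tp_inv hx hU, nn_perm hx, nn_perm hx, nn_perm hx, ← key i j k] at h5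
  have h6 : (gm x i j * gm x j i) * (gm x j k * gm x k j) * (gm x k i * gm x i k) ≠ 0 :=
    mul_ne_zero (mul_ne_zero (mul_ne_zero (hne _ _) (hne _ _)) (mul_ne_zero (hne _ _) (hne _ _)))
      (mul_ne_zero (hne _ _) (hne _ _))
  exact mul_right_cancel₀ h6 h5

omit [FiniteDimensional ℂ V] [Fintype ι] [DecidableEq ι] in
theorem gm_deriv (x v : ι → V) (i j : ι) :
    HasDerivAt (fun t : ℝ => gm (fun l => x l + (t : ℂ) • v l) i j)
      (inner ℂ (v i) (x j) + inner ℂ (x i) (v j)) 0 := by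
  have h1 : (fun t : ℝ => gm (fun l => x l + (t : ℂ) • v l) i j) = fun t : ℝ =>
      gm x i j + (t : ℂ) * (inner ℂ (v i) (x j) + inner ℂ (x i) (v j)) +
        (t : ℂ) ^ 2 * inner ℂ (v i) (v j) := by
    funext t
    unfold gm
    rw [inner_add_left, inner_add_right, inner_add_right, inner_smul_left, inner_smul_right,
      inner_smul_left, inner_smul_right, Complex.conj_ofReal]
    ring
  rw [h1]
  have h2 : HasDerivAt (fun t : ℝ => (t : ℂ)) 1 0 := Complex.ofRealCLM.hasDerivAt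
  have h3 := (h2.mul_const (inner ℂ (v i) (x j) + inner ℂ (x i) (v j))).const_add (gm x i j)
  have h4 := (h2.pow 2).mul_const (inner ℂ (v i) (v j))
  have h5 := h3.add h4
  have h6 : (1 : ℂ) * (inner ℂ (v i) (x j) + inner ℂ (x i) (v j)) +
      (2 : ℕ) * (((0 : ℝ) : ℂ)) ^ (2 - 1) * 1 * inner ℂ (v i) (v j) =
      inner ℂ (v i) (x j) + inner ℂ (x i) (v j) := by
    norm_num
  rw [h6] at h5
  exact h5

omit [FiniteDimensional ℂ V] [Fintype ι] [DecidableEq ι] in
theorem tp_deriv (x v : ι → V) (i j k : ι) :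
    HasDerivAt (fun t : ℝ => tp (fun l => x l + (t : ℂ) • v l) i j k)
      (dtp x (fun i j => inner ℂ (v i) (x j) + inner ℂ (x i) (v j)) i j k) 0 := by
  have h1 := ((gm_deriv x v i j).mul (gm_deriv x v j k)).mul (gm_deriv x v k i)
  have e0 : (fun l => x l + ((0 : ℝ) : ℂ) • v l) = x := by
    funext l
    simp
  rw [e0] at h1
  have e1 : ((inner ℂ (v i) (x j) + inner ℂ (x i) (v j)) * gm x j k +
      gm x i j * (inner ℂ (v j) (x k) + inner ℂ (x j) (v k))) * gm x k i +
      gm x i j * gm x j k * (inner ℂ (v k) (x i) + inner ℂ (x k) (v i)) =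
      dtp x (fun i j => inner ℂ (v i) (x j) + inner ℂ (x i) (v j)) i j k := by
    unfold dtp
    ring
  simp only [Pi.mul_apply] at h1
  rw [e0, e1] at h1
  exact h1

theorem first_inv (hx : IsEtf d x) (hd : 1 ≤ d) (hcard : Fintype.card ι = d ^ 2)
    (hV : Module.finrank ℂ V = d) {U : V ≃ₗᵢ[ℂ] V} {π : Equiv.Perm ι} (hU : Ind x U π)
    (hinv : ∀ z ∈ WZ (gm x) ((d : ℂ) / (d + 1)), ∀ i j, z (π i, π j) = z (i, j)) {v : ι → V}
    (hv : IsDef x v) (i j k : ι) :
    dtp x (fun i j => inner ℂ (v i) (x j) + inner ℂ (x i) (v j)) (π i) (π j) (π k) =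
      dtp x (fun i j => inner ℂ (v i) (x j) + inner ℂ (x i) (v j)) i j k := by
  obtain ⟨A, θ, w, hw, hA, hvw⟩ := (decomp hx hd hcard hV v).1 hv
  refine dtp_inv hx hU (z := zmap x w) (θ := fun i => (θ i : ℂ) * Complex.I)
    (hinv _ (zmap_mem hx hd hcard hV hw)) (fun i j => ?_) i j k
  simp only
  rw [zmap_apply, hvw, hvw]
  simp only [inner_add_left, inner_add_right, inner_smul_left, inner_smul_right, hA, map_mul,
    Complex.conj_ofReal, Complex.conj_I]
  have h2 := hw.2.1 i j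
  rw [inner_conj_symm, conj_gm]
  have h3 : gm x i j * inner ℂ (w j) (x i) = -(gm x j i * inner ℂ (w i) (x j)) := by
    have h4 := congrArg (starRingEnd ℂ) h2
    rw [map_add, map_mul, map_mul, conj_gm, conj_gm, inner_conj_symm, inner_conj_symm,
      map_zero] at h4
    linear_combination h4
  have h4 : (inner ℂ (x j) (x i) : ℂ) = gm x j i := rfl
  rw [h4]
  linear_combination h3

end General

section Prime

variable {p : ℕ} [hp : Fact p.Prime]

/-- **First order deformations are invariant under a regular group of symmetries.** -/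
theorem first (hp5 : 5 ≤ p) {x : Fin (p ^ 2) → EuclideanSpace ℂ (Fin p)} (h : IsEtf p x)
    (htr : ∀ i j, ∃ (U : EuclideanSpace ℂ (Fin p) ≃ₗᵢ[ℂ] EuclideanSpace ℂ (Fin p))
      (π : Equiv.Perm (Fin (p ^ 2))), Ind x U π ∧ π i = j) :
    ∃ W : Subgroup (Equiv.Perm (Fin (p ^ 2))), (∀ i j, ∃ π ∈ W, π i = j) ∧
      (∀ π ∈ W, ∀ i, π i = i → π = 1) ∧
      (∀ π ∈ W, ∃ U : EuclideanSpace ℂ (Fin p) ≃ₗᵢ[ℂ] EuclideanSpace ℂ (Fin p), Ind x U π) ∧
      ∀ v : Fin (p ^ 2) → EuclideanSpace ℂ (Fin p), IsDef x v → ∀ π ∈ W, ∀ i j k,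
        dtp x (fun i j => inner ℂ (v i) (x j) + inner ℂ (x i) (v j)) (π i) (π j) (π k) =
        dtp x (fun i j => inner ℂ (v i) (x j) + inner ℂ (x i) (v j)) i j k := by
  have hcard : Fintype.card (Fin (p ^ 2)) = p ^ 2 := Fintype.card_fin _
  have hV : Module.finrank ℂ (EuclideanSpace ℂ (Fin p)) = p := finrank_euclideanSpace_fin
  have hd : 1 ≤ p := by omega
  obtain ⟨A, B, α, β, ζ, hA, hB, hζ, hζp, hAB⟩ := exists_pair h hcard hV htr
  have hinv := fun (z : EuclideanSpace ℂ (Fin (p ^ 2) × Fin (p ^ 2)))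
    (hz : z ∈ WZ (gm x) ((p : ℂ) / (p + 1))) => inv_pair hp5 h hcard hV hA hB hζ hζp hAB hz
  obtain ⟨χ, ψ, T, σ, hχ, hsol, hT, hσα, hσβ⟩ := fid_pair h hcard hV hA hB hζ hζp hAB
  have hWσ : ∀ π ∈ Subgroup.closure {α, β}, ∃ s, ∀ k, σ (π k) = σ k + s := by
    intro π hπ
    induction hπ using Subgroup.closure_induction with
    | mem π hπ =>
      rcases hπ with rfl | rfl
      · exact ⟨_, hσα⟩
      · exact ⟨_, hσβ⟩
    | one => exact ⟨0, fun k => by simp⟩
    | mul π π' _ _ h1 h2 =>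
      obtain ⟨s, hs⟩ := h1
      obtain ⟨t, ht⟩ := h2
      exact ⟨t + s, fun k => by rw [Equiv.Perm.mul_apply, hs, ht, add_assoc]⟩
    | inv π _ h1 =>
      obtain ⟨s, hs⟩ := h1
      refine ⟨-s, fun k => ?_⟩
      have h2 := hs (π⁻¹ k)
      rw [show π (π⁻¹ k) = k from π.apply_symm_apply k] at h2
      rw [h2]
      abel
  refine ⟨Subgroup.closure {α, β}, fun i j => ?_, fun π hπ i hi => ?_, fun π hπ => ?_,
    fun v hv π hπ => ?_⟩
  · obtain ⟨m, n, hmn⟩ := trans_pair h hcard hV hA hB hζ hζp hAB i j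
    refine ⟨α ^ m * β ^ n, ?_, hmn⟩
    exact mul_mem (pow_mem (Subgroup.subset_closure (by simp)) _)
      (pow_mem (Subgroup.subset_closure (by simp)) _)
  · obtain ⟨s, hs⟩ := hWσ π hπ
    have h1 := hs i
    rw [hi] at h1
    have h2 : s = 0 := by
      have h3 : σ i + 0 = σ i + s := by rw [add_zero]; exact h1
      exact (add_left_cancel h3).symm
    ext k
    rw [Equiv.Perm.one_apply]
    congr 1
    apply σ.injective
    rw [hs, h2, add_zero]
  · induction hπ using Subgroup.closure_induction with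
    | mem π hπ =>
      rcases hπ with rfl | rfl
      · exact ⟨A, hA⟩
      · exact ⟨B, hB⟩
    | one => exact ⟨1, Ind.one⟩
    | mul π π' _ _ h1 h2 =>
      obtain ⟨U, hU⟩ := h1
      obtain ⟨U', hU'⟩ := h2
      exact ⟨U * U', hU.mul hU'⟩
    | inv π _ h1 =>
      obtain ⟨U, hU⟩ := h1
      exact ⟨U⁻¹, hU.inv h⟩
  · induction hπ using Subgroup.closure_induction with
    | mem π hπ =>
      rcases hπ with rfl | rfl
      · exact first_inv h hd hcard hV hA (fun z hz => (hinv z hz).1) hv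
      · exact first_inv h hd hcard hV hB (fun z hz => (hinv z hz).2) hv
    | one => exact fun i j k => rfl
    | mul π π' _ _ h1 h2 =>
      intro i j k
      rw [Equiv.Perm.mul_apply, Equiv.Perm.mul_apply, Equiv.Perm.mul_apply, h1, h2]
    | inv π _ h1 =>
      intro i j k
      rw [← h1]
      simp only [show ∀ k, π (π⁻¹ k) = k from fun k => π.apply_symm_apply k]

end Prime

end Pool.Agent.H774.IS
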