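import Pool.Graph.R_pool_sql_team_seeded_1acbe0a2.Y387.MD.Dec

/-!
# Limits of difference quotients of triple products
-/

set_option autoImplicit false

open Finset Filter Topology

namespace Pool.Agent.H774.IS

open Pool.Agent.Y387.SF Pool.Agent.Y387.MD

variable {V : Type*} [NormedAddCommGroup V] [InnerProductSpace ℂ V] [FiniteDimensional ℂ V]
  {ι : Type*} [Fintype ι] [DecidableEq ι] {x y : ι → V} {d : ℕ}

/-- triple products -/
noncomputable def tp (x : ι → V) (i j k : ι) : ℂ := gm x i j * gm x j k * gm x k i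

/-- the Gram matrix of `y`, with the phases of the row `o` of the Gram matrix of `x` -/
noncomputable def Gn (x : ι → V) (o : ι) (y : ι → V) (i j : ι) : ℂ :=
  tp y o i j * (gm x o i * gm x j o)⁻¹

/-- the phases -/
noncomputable def uu (x : ι → V) (o : ι) (y : ι → V) (i : ι) : ℂ := gm y o i * (gm x o i)⁻¹

omit [FiniteDimensional ℂ V] [Fintype ι] in
theorem gm_mul (hx : IsEtf d x) (hy : IsEtf d y) (i j : ι) :
    gm y i j * gm y j i = gm x i j * gm x j i := by
  unfold gm
  rw [hx.mul_inner, hy.mul_inner]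

omit [FiniteDimensional ℂ V] [Fintype ι] in
theorem uu_mul (hx : IsEtf d x) (hy : IsEtf d y) (o i : ι) :
    (starRingEnd ℂ) (uu x o y i) * uu x o y i = 1 := by
  unfold uu
  rw [map_mul, map_inv₀, conj_gm, conj_gm]
  have h1 := gm_mul hx hy o i
  have h2 : gm x o i ≠ 0 := hx.ne_zero o i
  have h3 : gm x i o ≠ 0 := hx.ne_zero i o
  field_simp
  linear_combination h1

omit [FiniteDimensional ℂ V] [Fintype ι] [DecidableEq ι] in
theorem Gn_eq (o i j : ι) :
    Gn x o y i j = uu x o y i * gm y i j * (starRingEnd ℂ) (uu x o y j) := by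
  unfold Gn uu tp
  rw [map_mul, map_inv₀, conj_gm, conj_gm, mul_inv]
  ring

omit [FiniteDimensional ℂ V] [Fintype ι] [DecidableEq ι] in
theorem Gn_self (hx : IsEtf d x) (o i j : ι) : Gn x o x i j = gm x i j := by
  unfold Gn tp
  have h2 : gm x o i ≠ 0 := hx.ne_zero o i
  have h3 : gm x j o ≠ 0 := hx.ne_zero j o
  field_simp

omit [FiniteDimensional ℂ V] [Fintype ι] in
theorem Gn_prod (hx : IsEtf d x) (hy : IsEtf d y) (o i j : ι) :
    Gn x o y i j * Gn x o y j i = gm x i j * gm x j i := by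
  rw [Gn_eq, Gn_eq, ← gm_mul hx hy]
  linear_combination (uu x o y i * (starRingEnd ℂ) (uu x o y i) * gm y i j * gm y j i) *
    uu_mul hx hy o j + gm y i j * gm y j i * uu_mul hx hy o i

omit [FiniteDimensional ℂ V] [Fintype ι] [DecidableEq ι] in
theorem Gn_conj (o i j : ι) : Gn x o y j i = (starRingEnd ℂ) (Gn x o y i j) := by
  rw [Gn_eq, Gn_eq, map_mul, map_mul, conj_gm, Complex.conj_conj]
  ring

omit [FiniteDimensional ℂ V] [Fintype ι] in
theorem Gn_tp (hx : IsEtf d x) (hy : IsEtf d y) (o i j k : ι) :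
    tp y i j k = Gn x o y i j * Gn x o y j k * Gn x o y k i := by
  have h1 := uu_mul hx hy o i
  have h2 := uu_mul hx hy o j
  have h3 := uu_mul hx hy o k
  rw [Gn_eq, Gn_eq, Gn_eq]
  have e1 : uu x o y i * gm y i j * (starRingEnd ℂ) (uu x o y j) *
      (uu x o y j * gm y j k * (starRingEnd ℂ) (uu x o y k)) *
      (uu x o y k * gm y k i * (starRingEnd ℂ) (uu x o y i)) =
      ((starRingEnd ℂ) (uu x o y i) * uu x o y i) * ((starRingEnd ℂ) (uu x o y j) * uu x o y j) *
      ((starRingEnd ℂ) (uu x o y k) * uu x o y k) * tp y i j k := by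
    unfold tp
    ring
  rw [e1, h1, h2, h3]
  ring

theorem Gn_D1 (hx : IsEtf d x) (hy : IsEtf d y) (hd : 1 ≤ d) (hcard : Fintype.card ι = d ^ 2)
    (hV : Module.finrank ℂ V = d) (o i k : ι) :
    ∑ j, Gn x o y i j * Gn x o y j k = d * Gn x o y i k := by
  have h1 : ∀ j, Gn x o y i j * Gn x o y j k = uu x o y i * (starRingEnd ℂ) (uu x o y k) *
      (gm y i j * gm y j k) := by
    intro j
    rw [Gn_eq, Gn_eq]
    linear_combination (uu x o y i * (starRingEnd ℂ) (uu x o y k) * gm y i j * gm y j k) *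
      uu_mul hx hy o j
  simp_rw [h1]
  rw [← Finset.mul_sum, Gn_eq]
  have h2 := frame_inner hy hd hcard hV (y i) (y k)
  unfold gm
  rw [h2]
  ring

/-- the difference quotient of a product -/
theorem leib {f f' g g' : ℕ → ℂ} {δ : ℕ → ℂ} {F G φ γ : ℂ} (hf : Tendsto f atTop (𝓝 F))
    (hg' : Tendsto g' atTop (𝓝 G)) (h1 : Tendsto (fun n => (f' n - f n) * (δ n)⁻¹) atTop (𝓝 φ))
    (h2 : Tendsto (fun n => (g' n - g n) * (δ n)⁻¹) atTop (𝓝 γ)) :
    Tendsto (fun n => (f' n * g' n - f n * g n) * (δ n)⁻¹) atTop (𝓝 (φ * G + F * γ)) := by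
  have h3 := (h1.mul hg').add (hf.mul h2)
  refine h3.congr fun n => ?_
  ring

/-- the tangent vector belonging to a limit of difference quotients -/
theorem tangent (hx : IsEtf d x) (hd : 1 ≤ d) (hcard : Fintype.card ι = d ^ 2)
    (hV : Module.finrank ℂ V = d) {h : ι → ι → ℂ}
    (T1 : ∀ i k, ∑ j, (h i j * gm x j k + gm x i j * h j k) = d * h i k)
    (T2 : ∀ i j, h i j * gm x j i + gm x i j * h j i = 0)
    (T3 : ∀ i j, h j i = (starRingEnd ℂ) (h i j)) :
    ∃ z ∈ WZ (gm x) ((d : ℂ) / (d + 1)), ∃ θ : ι → ℂ, ∀ i j, gm x i j * h j i =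
      (θ i - θ j) * (gm x i j * gm x j i) + (z (i, j) - (starRingEnd ℂ) (z (i, j))) := by
  have hd0 : (d : ℂ) ≠ 0 := by
    have : d ≠ 0 := by omega
    exact_mod_cast this
  set v : ι → V := fun j => (d : ℂ)⁻¹ • ∑ k, h k j • x k with hv
  have e1 : ∀ i j, inner ℂ (v j) (x i) = (d : ℂ)⁻¹ * ∑ k, h j k * gm x k i := by
    intro i j
    rw [hv]
    simp only [inner_smul_left, sum_inner, map_inv₀, Complex.conj_natCast]
    congr 1
    refine Finset.sum_congr rfl fun k _ => ?_
    rw [← T3]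
    rfl
  have e2 : ∀ i j, inner ℂ (x j) (v i) = (d : ℂ)⁻¹ * ∑ k, gm x j k * h k i := by
    intro i j
    rw [hv]
    simp only [inner_smul_right, inner_sum]
    congr 1
    refine Finset.sum_congr rfl fun k _ => ?_
    unfold gm
    ring
  have e3 : ∀ i j, inner ℂ (v j) (x i) + inner ℂ (x j) (v i) = h j i := by
    intro i j
    rw [e1, e2, ← mul_add, ← Finset.sum_add_distrib, T1, inv_mul_cancel_left₀ hd0]
  have hdef : IsDef x v := by
    intro i j
    rw [e3]
    have h1 := T2 i j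
    have h2 : h i j * gm x j i = (starRingEnd ℂ) (gm x i j * h j i) := by
      rw [map_mul, conj_gm, ← T3]
      ring
    rw [h2] at h1
    have h3 := congrArg Complex.re h1
    rw [Complex.add_re, Complex.conj_re, Complex.zero_re] at h3
    linarith
  obtain ⟨A, θ, w, hw, hA, hvw⟩ := (decomp hx hd hcard hV v).1 hdef
  refine ⟨zmap x w, zmap_mem hx hd hcard hV hw, fun i => (θ i : ℂ) * Complex.I, fun i j => ?_⟩
  rw [zmap_apply, ← e3, hvw, hvw]
  simp only [inner_add_left, inner_add_right, inner_smul_left, inner_smul_right, hA, map_mul,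
    Complex.conj_ofReal, Complex.conj_I]
  have h2 := hw.2.1 i j
  rw [inner_conj_symm, conj_gm]
  have h3 : gm x i j * inner ℂ (w j) (x i) = -(gm x j i * inner ℂ (w i) (x j)) := by
    have h4 := congrArg (starRingEnd ℂ) h2
    rw [map_add, map_mul, map_mul, conj_gm, conj_gm, inner_conj_symm, inner_conj_symm,
      map_zero] at h4
    linear_combination h4
  have h4 : (inner ℂ (x j) (x i) : ℂ) = gm x j i := rfl
  rw [h4]
  linear_combination h3

end Pool.Agent.H774.IS
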