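import Pool.Agent.H774.IS.Inv
import Pool.Agent.H774.IS.Lim

/-!
# Frames near a symmetric frame are symmetric
-/

set_option autoImplicit false

open Finset Filter Topology

namespace Pool.Agent.H774.IS

open Pool.Agent.Y387.SF Pool.Agent.Y387.MD

variable {V : Type*} [NormedAddCommGroup V] [InnerProductSpace ℂ V] [FiniteDimensional ℂ V]
  {ι : Type*} [Fintype ι] [DecidableEq ι] {x : ι → V} {d : ℕ}

omit [FiniteDimensional ℂ V] [Fintype ι] [DecidableEq ι] in
theorem tp_inv (h : IsEtf d x) {U : V ≃ₗᵢ[ℂ] V} {π : Equiv.Perm ι} (hU : Ind x U π) (i j k : ι) :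
    tp x (π i) (π j) (π k) = tp x i j k := by
  obtain ⟨a, ha⟩ := hU i
  obtain ⟨b, hb⟩ := hU j
  obtain ⟨c, hc⟩ := hU k
  have ha1 := conj_mul_self_of_norm (ind_norm h ha)
  have hb1 := conj_mul_self_of_norm (ind_norm h hb)
  have hc1 := conj_mul_self_of_norm (ind_norm h hc)
  unfold tp
  rw [gm_phase ha hb, gm_phase hb hc, gm_phase hc ha]
  have e1 : (starRingEnd ℂ) a * b * gm x (π i) (π j) * ((starRingEnd ℂ) b * c * gm x (π j) (π k)) *
      ((starRingEnd ℂ) c * a * gm x (π k) (π i)) = ((starRingEnd ℂ) a * a) *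
      ((starRingEnd ℂ) b * b) * ((starRingEnd ℂ) c * c) *
      (gm x (π i) (π j) * gm x (π j) (π k) * gm x (π k) (π i)) := by ring
  rw [e1, ha1, hb1, hc1]
  ring

omit [FiniteDimensional ℂ V] [Fintype ι] in
theorem nn_perm (h : IsEtf d x) (π : Equiv.Perm ι) (i j : ι) :
    gm x (π i) (π j) * gm x (π j) (π i) = gm x i j * gm x j i := by
  unfold gm
  rw [h.mul_inner, h.mul_inner]
  simp only [EmbeddingLike.apply_eq_iff_eq]

/-- a limit of difference quotients of triple products is invariant under all symmetries under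
which the deformations are invariant -/
theorem lim_inv (hx : IsEtf d x) (hd : 1 ≤ d) (hcard : Fintype.card ι = d ^ 2)
    (hV : Module.finrank ℂ V = d) {U : V ≃ₗᵢ[ℂ] V} {π : Equiv.Perm ι} (hU : Ind x U π)
    (hinv : ∀ z ∈ WZ (gm x) ((d : ℂ) / (d + 1)), ∀ i j, z (π i, π j) = z (i, j))
    {y y' : ℕ → ι → V} (hy : ∀ n, IsEtf d (y n)) (hy' : ∀ n, IsEtf d (y' n)) {δ : ℕ → ℝ}
    {H : ι → ι → ι → ℂ}
    (h1 : ∀ i j k, Tendsto (fun n => tp (y n) i j k) atTop (𝓝 (tp x i j k)))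
    (h2 : ∀ i j k, Tendsto (fun n => tp (y' n) i j k) atTop (𝓝 (tp x i j k)))
    (h3 : ∀ i j k, Tendsto (fun n => (tp (y' n) i j k - tp (y n) i j k) * ((δ n : ℝ) : ℂ)⁻¹) atTop
      (𝓝 (H i j k))) (i j k : ι) : H (π i) (π j) (π k) = H i j k := by
  set o : ι := i with ho
  set h : ι → ι → ℂ := fun i j => H o i j * (gm x o i * gm x j o)⁻¹ with hh
  have hG : ∀ i j, Tendsto (fun n => Gn x o (y n) i j) atTop (𝓝 (gm x i j)) := by
    intro i j
    rw [← Gn_self hx o i j]
    exact (h1 o i j).mul_const _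
  have hG' : ∀ i j, Tendsto (fun n => Gn x o (y' n) i j) atTop (𝓝 (gm x i j)) := by
    intro i j
    rw [← Gn_self hx o i j]
    exact (h2 o i j).mul_const _
  have hD : ∀ i j, Tendsto (fun n => (Gn x o (y' n) i j - Gn x o (y n) i j) *
      ((δ n : ℝ) : ℂ)⁻¹) atTop (𝓝 (h i j)) := by
    intro i j
    refine ((h3 o i j).mul_const _).congr fun n => ?_
    unfold Gn
    ring
  have T1 : ∀ i k, ∑ j, (h i j * gm x j k + gm x i j * h j k) = d * h i k := by
    intro i k
    have e1 : Tendsto (fun n => ∑ j, (Gn x o (y' n) i j * Gn x o (y' n) j k -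
        Gn x o (y n) i j * Gn x o (y n) j k) * ((δ n : ℝ) : ℂ)⁻¹) atTop
        (𝓝 (∑ j, (h i j * gm x j k + gm x i j * h j k))) :=
      tendsto_finsetSum _ fun j _ => leib (hG i j) (hG' j k) (hD i j) (hD j k)
    have e2 : Tendsto (fun n => (d : ℂ) * ((Gn x o (y' n) i k - Gn x o (y n) i k) *
      ((δ n : ℝ) : ℂ)⁻¹)) atTop (𝓝 (d * h i k)) := (hD i k).const_mul _
    refine tendsto_nhds_unique e1 (e2.congr fun n => ?_)
    rw [← Finset.sum_mul, Finset.sum_sub_distrib, Gn_D1 hx (hy' n) hd hcard hV,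
      Gn_D1 hx (hy n) hd hcard hV]
    ring
  have T2 : ∀ i j, h i j * gm x j i + gm x i j * h j i = 0 := by
    intro i j
    refine tendsto_nhds_unique (leib (hG i j) (hG' j i) (hD i j) (hD j i))
      (tendsto_const_nhds.congr fun n => ?_)
    rw [Gn_prod hx (hy' n), Gn_prod hx (hy n), sub_self, zero_mul]
  have T3 : ∀ i j, h j i = (starRingEnd ℂ) (h i j) := by
    intro i j
    refine tendsto_nhds_unique (hD j i)
      (((Complex.continuous_conj.tendsto _).comp (hD i j)).congr fun n => ?_)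
    simp only [Function.comp_apply, map_mul, map_sub, map_inv₀, Complex.conj_ofReal]
    rw [← Gn_conj, ← Gn_conj]
  have T4 : ∀ i j k, H i j k = h i j * gm x j k * gm x k i + gm x i j * h j k * gm x k i +
      gm x i j * gm x j k * h k i := by
    intro i j k
    have e1 := leib (hG i j) (hG' j k) (hD i j) (hD j k)
    have e2 := leib ((hG i j).mul (hG j k)) (hG' k i) e1 (hD k i)
    rw [tendsto_nhds_unique (h3 i j k) (e2.congr fun n => ?_)]
    · ring
    · rw [Gn_tp hx (hy' n) o, Gn_tp hx (hy n) o]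
  obtain ⟨z, hz, θ, hθ⟩ := tangent hx hd hcard hV T1 T2 T3
  have hzπ := hinv z hz
  have hne : ∀ i j, gm x i j ≠ 0 := fun i j => hx.ne_zero i j
  have key : ∀ i j k, H i j k * ((gm x i j * gm x j i) * (gm x j k * gm x k j) *
      (gm x k i * gm x i k)) = tp x i j k * (
        (z (j, i) - (starRingEnd ℂ) (z (j, i))) * (gm x j k * gm x k j) * (gm x k i * gm x i k) +
        (z (k, j) - (starRingEnd ℂ) (z (k, j))) * (gm x i j * gm x j i) * (gm x k i * gm x i k) +
        (z (i, k) - (starRingEnd ℂ) (z (i, k))) * (gm x i j * gm x j i) *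
          (gm x j k * gm x k j)) := by
    intro i j k
    rw [T4]
    have a1 := hθ j i
    have a2 := hθ k j
    have a3 := hθ i k
    unfold tp
    linear_combination (gm x i j * gm x j k * gm x k i) * ((gm x j k * gm x k j) *
      (gm x k i * gm x i k) * a1 + (gm x i j * gm x j i) * (gm x k i * gm x i k) * a2 +
      (gm x i j * gm x j i) * (gm x j k * gm x k j) * a3)
  have h5 := key (π i) (π j) (π k)
  rw [hzπ, hzπ, hzπ, tp_inv hx hU, nn_perm hx, nn_perm hx, nn_perm hx, ← key i j k] at h5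
  have h6 : (gm x i j * gm x j i) * (gm x j k * gm x k j) * (gm x k i * gm x i k) ≠ 0 :=
    mul_ne_zero (mul_ne_zero (mul_ne_zero (hne _ _) (hne _ _)) (mul_ne_zero (hne _ _) (hne _ _)))
      (mul_ne_zero (hne _ _) (hne _ _))
  exact mul_right_cancel₀ h6 h5

omit [FiniteDimensional ℂ V] [Fintype ι] [DecidableEq ι] in
theorem etf_perm {y : ι → V} (h : IsEtf d y) (π : Equiv.Perm ι) : IsEtf d (fun i => y (π i)) :=
  ⟨fun i => h.nrm _, fun i j hij => h.ang _ _ fun h0 => hij (π.injective h0)⟩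

/-- **Frames near a frame with rigid symmetries have these symmetries.** -/
theorem near_inv (hx : IsEtf d x) (hd : 1 ≤ d) (hcard : Fintype.card ι = d ^ 2)
    (hV : Module.finrank ℂ V = d) {U : V ≃ₗᵢ[ℂ] V} {π : Equiv.Perm ι} (hU : Ind x U π)
    (hinv : ∀ z ∈ WZ (gm x) ((d : ℂ) / (d + 1)), ∀ i j, z (π i, π j) = z (i, j)) :
    ∃ ε > 0, ∀ y : ι → V, IsEtf d y → (∀ i j k, ‖tp y i j k - tp x i j k‖ < ε) →
      ∀ i j k, tp y (π i) (π j) (π k) = tp y i j k := by
  by_contra hcon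
  push Not at hcon
  have hc : ∀ n : ℕ, ∃ y : ι → V, IsEtf d y ∧
      (∀ i j k, ‖tp y i j k - tp x i j k‖ < 1 / ((n : ℝ) + 1)) ∧
      ∃ i j k, tp y (π i) (π j) (π k) ≠ tp y i j k := fun n => hcon _ (by positivity)
  choose y hy hyx hne using hc
  have hy1 : ∀ i j k, Tendsto (fun n => tp (y n) i j k) atTop (𝓝 (tp x i j k)) := by
    intro i j k
    rw [tendsto_iff_norm_sub_tendsto_zero]
    exact squeeze_zero (fun n => norm_nonneg _) (fun n => (hyx n i j k).le)
      tendsto_one_div_add_atTop_nhds_zero_nat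
  set D : ℕ → (ι × ι × ι → ℂ) := fun n q =>
    tp (y n) (π q.1) (π q.2.1) (π q.2.2) - tp (y n) q.1 q.2.1 q.2.2 with hD
  have hD0 : ∀ n, D n ≠ 0 := by
    intro n h0
    obtain ⟨i, j, k, h1⟩ := hne n
    apply h1
    have h2 := congrFun h0 (i, j, k)
    simp only [hD, Pi.zero_apply] at h2
    exact sub_eq_zero.1 h2
  have hδ : ∀ n, 0 < ‖D n‖ := fun n => norm_pos_iff.2 (hD0 n)
  have hS : ∀ n, (((‖D n‖ : ℝ) : ℂ)⁻¹ • D n) ∈ Metric.sphere (0 : ι × ι × ι → ℂ) 1 := by
    intro n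
    rw [mem_sphere_zero_iff_norm, norm_smul, norm_inv, Complex.norm_real, norm_norm,
      inv_mul_cancel₀ (hδ n).ne']
  obtain ⟨H, hH, φ, hφ, hlim⟩ := (isCompact_sphere (0 : ι × ι × ι → ℂ) 1).tendsto_subseq hS
  rw [tendsto_pi_nhds] at hlim
  have hlim' : ∀ i j k, Tendsto (fun n => (tp (fun i => y (φ n) (π i)) i j k -
      tp (y (φ n)) i j k) * ((‖D (φ n)‖ : ℝ) : ℂ)⁻¹) atTop (𝓝 (H (i, j, k))) := by
    intro i j k
    refine (hlim (i, j, k)).congr fun n => ?_
    simp only [Function.comp_apply, Pi.smul_apply, smul_eq_mul, hD]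
    rw [mul_comm]
    rfl
  have hHinv : ∀ i j k, H (π i, π j, π k) = H (i, j, k) :=
    lim_inv hx hd hcard hV hU hinv (y := fun n => y (φ n)) (y' := fun n i => y (φ n) (π i))
      (fun n => hy _) (fun n => etf_perm (hy _) π) (δ := fun n => ‖D (φ n)‖)
      (H := fun i j k => H (i, j, k)) (fun i j k => (hy1 i j k).comp hφ.tendsto_atTop)
      (fun i j k => by
        rw [← tp_inv hx hU i j k]
        exact (hy1 (π i) (π j) (π k)).comp hφ.tendsto_atTop) hlim'
  have hHpow : ∀ m : ℕ, ∀ i j k, H ((π ^ m) i, (π ^ m) j, (π ^ m) k) = H (i, j, k) := by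
    intro m
    induction m with
    | zero => intro i j k; simp
    | succ m ih =>
      intro i j k
      rw [pow_succ', Equiv.Perm.mul_apply, Equiv.Perm.mul_apply, Equiv.Perm.mul_apply, hHinv, ih]
  have hN : 0 < orderOf π := orderOf_pos π
  have hH0 : ∀ i j k, H (i, j, k) = 0 := by
    intro i j k
    have e1 : Tendsto (fun n => ∑ m ∈ range (orderOf π), (((‖D (φ n)‖ : ℝ) : ℂ)⁻¹ •
        D (φ n)) ((π ^ m) i, (π ^ m) j, (π ^ m) k)) atTop
        (𝓝 (∑ m ∈ range (orderOf π), H ((π ^ m) i, (π ^ m) j, (π ^ m) k))) :=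
      tendsto_finsetSum _ fun m _ => hlim _
    have e2 : ∀ n, ∑ m ∈ range (orderOf π), (((‖D (φ n)‖ : ℝ) : ℂ)⁻¹ •
        D (φ n)) ((π ^ m) i, (π ^ m) j, (π ^ m) k) = 0 := by
      intro n
      simp only [Pi.smul_apply, smul_eq_mul]
      rw [← Finset.mul_sum]
      have e3 : ∀ m ∈ range (orderOf π), D (φ n) ((π ^ m) i, (π ^ m) j, (π ^ m) k) =
          tp (y (φ n)) ((π ^ (m + 1)) i) ((π ^ (m + 1)) j) ((π ^ (m + 1)) k) -
          tp (y (φ n)) ((π ^ m) i) ((π ^ m) j) ((π ^ m) k) := by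
        intro m _
        simp only [hD, pow_succ', Equiv.Perm.mul_apply]
      rw [Finset.sum_congr rfl e3, Finset.sum_range_sub (fun m => tp (y (φ n)) ((π ^ m) i)
        ((π ^ m) j) ((π ^ m) k)), pow_orderOf_eq_one]
      simp
    simp_rw [e2] at e1
    have e4 := tendsto_nhds_unique e1 tendsto_const_nhds
    simp_rw [hHpow] at e4
    rw [Finset.sum_const, Finset.card_range, nsmul_eq_mul] at e4
    rcases mul_eq_zero.1 e4 with h5 | h5
    · exact absurd (by exact_mod_cast h5) hN.ne'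
    · exact h5
  have hHz : H = 0 := funext fun q => hH0 q.1 q.2.1 q.2.2
  rw [hHz, mem_sphere_zero_iff_norm, norm_zero] at hH
  exact zero_ne_one hH

end Pool.Agent.H774.IS
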