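import Pool.Graph.R_seed8.Y387.SF.Fid
import Pool.Graph.R_seed8.Y387.SF.Sol
import Pool.Graph.R_seed8.Y387.SF.Count

/-!
# A rigidity lemma for the fiducial vectors in prime dimension
-/

set_option autoImplicit false

open Finset

namespace Pool.Agent.H774.IS

open Pool.Agent.Y387.SF

variable {p : ℕ} [hp : Fact p.Prime]

/-- the quartic sums of a deformation -/
noncomputable def VV (ψ Y : ZMod p → ℂ) (u v : ZMod p) : ℂ :=
  ∑ k, Y k * (cj ψ (k + u) * cj ψ (k + v) * ψ (k + u + v))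

theorem VV_symm (ψ Y : ZMod p → ℂ) (u v : ZMod p) : VV ψ Y u v = VV ψ Y v u := by
  unfold VV
  refine Finset.sum_congr rfl fun k _ => ?_
  rw [add_right_comm]
  ring

theorem chi_inj {χ : AddChar (ZMod p) ℂ} (hχ : χ ≠ 1) : Function.Injective χ := char_injective hχ

/-- antisymmetry makes the sums vanish off the diagonal -/
theorem VV_off {χ : AddChar (ZMod p) ℂ} (hχ : χ ≠ 1) {ψ Y : ZMod p → ℂ} {α : ZMod p} (hα : α ≠ 0)
    (hA : ∀ u v, VV ψ Y (-u) v = -(χ (α * u) * VV ψ Y u (-v))) {u v : ZMod p}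
    (huv : u ≠ v ∨ u = 0) : VV ψ Y u v = 0 := by
  by_cases h : u = v
  · have hu : u = 0 := huv.resolve_left fun h' => h' h
    have hv : v = 0 := h ▸ hu
    have h1 := hA 0 0
    rw [neg_zero, mul_zero, AddChar.map_zero_eq_one, one_mul] at h1
    rw [hu, hv]
    linear_combination h1 / 2
  · have h5 : VV ψ Y u v = -(χ (-(α * u)) * VV ψ Y (-u) (-v)) := by
      have := hA (-u) v
      rw [neg_neg, mul_neg] at this
      exact this
    have h6 : VV ψ Y u v = -(χ (-(α * v)) * VV ψ Y (-u) (-v)) := by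
      have := hA (-v) u
      rw [neg_neg, mul_neg, VV_symm ψ Y v u, VV_symm ψ Y (-v) (-u)] at this
      exact this
    have h7 : (χ (-(α * u)) - χ (-(α * v))) * VV ψ Y (-u) (-v) = 0 := by
      linear_combination h5 - h6
    rcases mul_eq_zero.1 h7 with h8 | h8
    · exfalso
      have h9 := chi_inj hχ (sub_eq_zero.1 h8)
      have h10 : α * u = α * v := neg_injective h9
      exact h (mul_left_cancel₀ hα h10)
    · rw [h5, h8, mul_zero, neg_zero]

/-- a function whose correlations with a function without Fourier zeros vanish is zero -/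
theorem conv_zero {χ : AddChar (ZMod p) ℂ} (hχ : χ ≠ 1) {D E : ZMod p → ℂ}
    (hE : ∀ b, ft χ E b ≠ 0) (h : ∀ v, ∑ k, D k * E (k + v) = 0) : D = 0 := by
  have hp0 : (p : ℂ) ≠ 0 := by exact_mod_cast hp.out.ne_zero
  have h1 : ∀ k, ∑ b, (ft χ D b * ft χ E (-b)) * χ (b * k) = 0 := by
    intro k
    rw [corr_ft hχ, h, mul_zero]
  have h2 : ∀ b, ft χ D b * ft χ E (-b) = 0 := by
    intro b
    have h3 := ft_inv hχ (fun b => ft χ D b * ft χ E (-b)) b
    have h4 : ∀ c, ft χ (fun b => ft χ D b * ft χ E (-b)) c = 0 := by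
      intro c
      rw [← h1 c]
      unfold ft
      refine Finset.sum_congr rfl fun b _ => ?_
      rw [mul_comm c b]
    simp_rw [h4, zero_mul, Finset.sum_const_zero] at h3
    rcases mul_eq_zero.1 h3.symm with h5 | h5
    · exact absurd h5 hp0
    · exact h5
  have h3 : ∀ b, ft χ D b = 0 := fun b => (mul_eq_zero.1 (h2 b)).resolve_right (hE _)
  funext i
  have h4 := ft_inv hχ D i
  simp_rw [h3, zero_mul, Finset.sum_const_zero] at h4
  exact (mul_eq_zero.1 h4.symm).resolve_left hp0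

variable {χ : AddChar (ZMod p) ℂ} {ψ : ZMod p → ℂ}

theorem cc_ne (h : IsSol χ ψ (cj ψ)) (a b : ZMod p) : cc χ ψ (cj ψ) a b ≠ 0 := by
  by_cases hab : a = 0 ∧ b = 0
  · rw [hab.1, hab.2]
    have h1 := h.one
    unfold cc
    simp only [add_zero, zero_mul, AddChar.map_zero_eq_one, mul_one]
    rw [h1]
    exact one_ne_zero
  · have h1 := h.mul a b (by tauto)
    intro h0
    rw [h0, zero_mul] at h1
    have h2 : ((p : ℂ) + 1) ≠ 0 := by exact_mod_cast p.succ_ne_zero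
    exact inv_ne_zero h2 h1.symm

theorem cd_ne (h : IsSol χ ψ (cj ψ)) (a b : ZMod p) : cd χ ψ (cj ψ) a b ≠ 0 := by
  rw [cd_conj]
  exact (map_ne_zero _).2 (cc_ne h a b)

/-- `Y` vanishes on the support of `ψ` -/
theorem Y_psi (hχ : χ ≠ 1) (h : IsSol χ ψ (cj ψ)) {Y : ZMod p → ℂ} {α : ZMod p} (hα : α ≠ 0)
    (hA : ∀ u v, VV ψ Y (-u) v = -(χ (α * u) * VV ψ Y u (-v))) (k : ZMod p) :
    Y k * cj ψ k = 0 := by
  have h1 : (fun k => Y k * cj ψ k) = 0 := by
    apply conv_zero hχ (E := fun k => ψ k * cj ψ k)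
    · intro b
      have h2 := cc_ne h 0 b
      unfold cc at h2
      unfold ft
      simpa using h2
    · intro v
      have h2 := VV_off hχ hα hA (u := 0) (v := v) (Or.inr rfl)
      unfold VV at h2
      rw [← h2]
      refine Finset.sum_congr rfl fun k _ => ?_
      rw [add_zero]
      ring
  exact congrFun h1 k

/-- the products with one neighbour -/
theorem Y_rel (hχ : χ ≠ 1) (h : IsSol χ ψ (cj ψ)) {Y : ZMod p → ℂ} {α : ZMod p} (hα : α ≠ 0)
    (hA : ∀ u v, VV ψ Y (-u) v = -(χ (α * u) * VV ψ Y u (-v))) {u : ZMod p} (hu : u ≠ 0) :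
    ∃ κ : ℂ, ∀ k, Y k * cj ψ (k + u) = κ * (ψ (k + u) * cj ψ (k + u + u)) := by
  have hp1 : ((p : ℂ) + 1) ≠ 0 := by exact_mod_cast p.succ_ne_zero
  refine ⟨VV ψ Y u u * (p + 1), fun k => ?_⟩
  have h1 : (fun k => Y k * cj ψ (k + u) -
      VV ψ Y u u * (p + 1) * (ψ (k + u) * cj ψ (k + u + u))) = 0 := by
    apply conv_zero hχ (E := fun k => cj ψ k * ψ (k + u))
    · intro b
      have h2 := cd_ne h u (-b)
      rw [cd_eq_ft, neg_neg] at h2
      have h3 : (fun j => ψ (j + u) * cj ψ j) = fun k => cj ψ k * ψ (k + u) := by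
        funext j
        ring
      rwa [h3] at h2
    · intro v
      have h2 := h.corr hχ hu (v - u)
      have h3 : ∑ k, ψ (k + u) * cj ψ (k + u + u) * (ψ (k + v + u) * cj ψ (k + v)) =
          if v - u = 0 then ((p : ℂ) + 1)⁻¹ else 0 := by
        rw [← h2]
        refine Fintype.sum_equiv (Equiv.addRight u) _ _ fun k => ?_
        rw [Equiv.coe_addRight]
        have e1 : k + u + (v - u) = k + v := by ring
        rw [e1]
      have h4 : ∑ k, (Y k * cj ψ (k + u) - VV ψ Y u u * (p + 1) *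
          (ψ (k + u) * cj ψ (k + u + u))) * (cj ψ (k + v) * ψ (k + v + u)) =
          VV ψ Y u v - VV ψ Y u u * (p + 1) *
          ∑ k, ψ (k + u) * cj ψ (k + u + u) * (ψ (k + v + u) * cj ψ (k + v)) := by
        unfold VV
        rw [Finset.mul_sum, ← Finset.sum_sub_distrib]
        refine Finset.sum_congr rfl fun k _ => ?_
        rw [add_right_comm k v u]
        ring
      rw [h4, h3]
      by_cases hvu : v = u
      · rw [hvu, sub_self, if_pos rfl]
        field_simp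
        ring
      · rw [if_neg (sub_ne_zero.2 hvu), mul_zero, sub_zero]
        exact VV_off hχ hα hA (Or.inl (Ne.symm hvu))
  have h2 := congrFun h1 k
  simp only [Pi.zero_apply] at h2
  exact sub_eq_zero.1 h2

/-- the squared moduli -/
theorem P_corr (hχ : χ ≠ 1) (h : IsSol χ ψ (cj ψ)) (k : ZMod p) :
    ∑ j, ‖ψ j‖ ^ 2 * ‖ψ (j + k)‖ ^ 2 = (if k = 0 then 2 else 1) * ((p : ℝ) + 1)⁻¹ := by
  have h1 := h.corr_zero hχ k
  have h2 : ∀ j, ψ j * cj ψ j = ((‖ψ j‖ ^ 2 : ℝ) : ℂ) := by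
    intro j
    rw [Complex.mul_conj, Complex.normSq_eq_norm_sq]
  simp_rw [h2] at h1
  have h3 : ((∑ j, ‖ψ j‖ ^ 2 * ‖ψ (j + k)‖ ^ 2 : ℝ) : ℂ) =
      (((if k = 0 then 2 else 1) * ((p : ℝ) + 1)⁻¹ : ℝ) : ℂ) := by
    push_cast at h1 ⊢
    rw [h1]
    split_ifs <;> norm_num
  exact_mod_cast h3

theorem P_one (h : IsSol χ ψ (cj ψ)) : ∑ j, ‖ψ j‖ ^ 2 = 1 := by
  have h1 := h.one
  have h2 : ∀ j, ψ j * cj ψ j = ((‖ψ j‖ ^ 2 : ℝ) : ℂ) := by
    intro j
    rw [Complex.mul_conj, Complex.normSq_eq_norm_sq]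
  simp_rw [h2] at h1
  exact_mod_cast h1

/-- closed under addition of a nonzero element -/
theorem closed_add {S : ZMod p → Prop} {δ : ZMod p} (hδ : δ ≠ 0) (h : ∀ x, S x → S (x + δ))
    {x : ZMod p} (hx : S x) (y : ZMod p) : S y := by
  have h1 : ∀ n : ℕ, S (x + n * δ) := by
    intro n
    induction n with
    | zero => simpa using hx
    | succ n ih =>
      have h2 := h _ ih
      have h3 : x + ((n + 1 : ℕ) : ZMod p) * δ = x + n * δ + δ := by
        push_cast
        ring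
      rw [h3]
      exact h2
  have h2 := h1 ((y - x) / δ).val
  rw [ZMod.natCast_zmod_val, div_mul_cancel₀ _ hδ, add_sub_cancel] at h2
  exact h2

/-- **The rigidity lemma.** -/
theorem Y_zero (hp5 : 5 ≤ p) (hχ : χ ≠ 1) (h : IsSol χ ψ (cj ψ)) {Y : ZMod p → ℂ} {α : ZMod p}
    (hα : α ≠ 0) (hA : ∀ u v, VV ψ Y (-u) v = -(χ (α * u) * VV ψ Y u (-v))) : Y = 0 := by
  by_contra hY
  obtain ⟨k₀, hk₀⟩ : ∃ k, Y k ≠ 0 := by
    by_contra hcon
    push Not at hcon
    exact hY (funext hcon)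
  have hz : ∀ k, Y k ≠ 0 → ψ k = 0 := by
    intro k hk
    have h1 := Y_psi hχ h hα hA k
    exact (map_eq_zero _).1 ((mul_eq_zero.1 h1).resolve_left hk)
  have hψ0 := hz k₀ hk₀
  have hrel := fun (u : ZMod p) (hu : u ≠ 0) => Y_rel hχ h hα hA hu
  have hsub : ∀ k x, Y k ≠ 0 → ψ x ≠ 0 → x - k ≠ 0 := by
    intro k x hk hx h0
    apply hx
    rw [sub_eq_zero.1 h0]
    exact hz k hk
  -- reflection of the support
  have hrefl : ∀ k x, Y k ≠ 0 → ψ x ≠ 0 → ψ (2 * x - k) ≠ 0 := by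
    intro k x hk hx h0
    obtain ⟨κ, hκ⟩ := hrel (x - k) (hsub k x hk hx)
    have h1 := hκ k
    have e1 : k + (x - k) = x := by ring
    have e2 : x + (x - k) = 2 * x - k := by ring
    rw [e1, e2, show cj ψ (2 * x - k) = 0 from (map_eq_zero _).2 h0, mul_zero, mul_zero] at h1
    rcases mul_eq_zero.1 h1 with h2 | h2
    · exact hk h2
    · exact hx ((map_eq_zero _).1 h2)
  classical
  set S : Finset (ZMod p) := univ.filter fun k => ψ k ≠ 0 with hS
  have h20 : (2 : ZMod p) ≠ 0 := by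
    intro h0
    have h1 : ((2 : ℕ) : ZMod p) = 0 := by exact_mod_cast h0
    rw [ZMod.natCast_eq_zero_iff] at h1
    have := Nat.le_of_dvd (by norm_num) h1
    omega
  have hinj : ∀ k : ZMod p, Function.Injective fun x : ZMod p => 2 * x - k := by
    intro k a b hab
    simp only at hab
    have h1 : 2 * a = 2 * b := by linear_combination hab
    exact mul_left_cancel₀ h20 h1
  have himg : ∀ k, Y k ≠ 0 → S.image (fun x => 2 * x - k) = S := by
    intro k hk
    apply Finset.eq_of_subset_of_card_le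
    · intro y hy
      rw [Finset.mem_image] at hy
      obtain ⟨x, hx, rfl⟩ := hy
      rw [hS, Finset.mem_filter] at hx ⊢
      exact ⟨Finset.mem_univ _, hrefl k x hk hx.2⟩
    · rw [Finset.card_image_of_injective _ (hinj k)]
  obtain ⟨x₀, hx₀⟩ : ∃ x, ψ x ≠ 0 := by
    by_contra hcon
    push Not at hcon
    have h1 := P_one h
    simp_rw [hcon] at h1
    simp at h1
  -- the support of `Y` is one point
  have huniq : ∀ k, Y k ≠ 0 → k = k₀ := by
    intro k₁ hk₁
    by_contra hne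
    have hδ : k₀ - k₁ ≠ 0 := sub_ne_zero.2 (Ne.symm hne)
    have hcl : ∀ x, ψ x ≠ 0 → ψ (x + (k₀ - k₁)) ≠ 0 := by
      intro x hx
      have h1 : x ∈ S.image (fun x => 2 * x - k₀) := by
        rw [himg k₀ hk₀, hS, Finset.mem_filter]
        exact ⟨Finset.mem_univ _, hx⟩
      rw [Finset.mem_image] at h1
      obtain ⟨y, hy, hyx⟩ := h1
      rw [hS, Finset.mem_filter] at hy
      have h2 := hrefl k₁ y hk₁ hy.2
      have h3 : x + (k₀ - k₁) = 2 * y - k₁ := by
        rw [← hyx]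
        ring
      rw [h3]
      exact h2
    exact closed_add (S := fun x => ψ x ≠ 0) hδ hcl hx₀ k₀ hψ0
  -- the products
  have hprod : ∀ x, ψ x ≠ 0 → ‖ψ x‖ ^ 2 * ‖ψ (2 * x - k₀)‖ ^ 2 = ((p : ℝ) + 1)⁻¹ := by
    intro x' hx'
    set u := x' - k₀ with hu
    have hu0 : u ≠ 0 := hsub k₀ x' hk₀ hx'
    obtain ⟨κ, hκ⟩ := hrel u hu0
    have hκ0 : κ ≠ 0 := by
      intro h0
      have h1 := hκ k₀
      rw [h0, zero_mul, show k₀ + u = x' by rw [hu]; ring] at h1
      rcases mul_eq_zero.1 h1 with h2 | h2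
      · exact hk₀ h2
      · exact hx' ((map_eq_zero _).1 h2)
    have h1 := P_corr hχ h u
    rw [if_neg hu0, one_mul, Finset.sum_eq_single x'] at h1
    · rw [← h1, show x' + u = 2 * x' - k₀ by rw [hu]; ring]
    · intro x _ hx
      by_cases hψx : ψ x = 0
      · rw [hψx]; simp
      · have h2 := hκ (x - u)
        have h3 : Y (x - u) = 0 := by
          by_contra h4
          have h5 := huniq _ h4
          apply hx
          rw [hu] at h5
          linear_combination h5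
        rw [h3, zero_mul, sub_add_cancel] at h2
        rcases mul_eq_zero.1 h2.symm with h4 | h4
        · exact absurd h4 hκ0
        · rcases mul_eq_zero.1 h4 with h5 | h5
          · exact absurd h5 hψx
          · rw [(map_eq_zero _).1 h5]
            simp
    · intro h0
      exact absurd (Finset.mem_univ _) h0
  -- counting
  have hp1 : (0 : ℝ) < (p : ℝ) + 1 := by positivity
  have hsq : ∑ x ∈ S, (‖ψ x‖ ^ 2) ^ 2 = 2 * ((p : ℝ) + 1)⁻¹ := by
    have h1 := P_corr hχ h 0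
    rw [if_pos rfl] at h1
    rw [← h1, hS, Finset.sum_filter]
    refine Finset.sum_congr rfl fun x _ => ?_
    split_ifs with h2
    · rw [add_zero]; ring
    · push Not at h2
      rw [h2]; simp
  have hsum : ∑ x ∈ S, ‖ψ x‖ ^ 2 = 1 := by
    rw [← P_one h, hS, Finset.sum_filter]
    refine Finset.sum_congr rfl fun x _ => ?_
    split_ifs with h2
    · rfl
    · push Not at h2
      rw [h2]; simp
  have hsq' : ∑ x ∈ S, (‖ψ (2 * x - k₀)‖ ^ 2) ^ 2 = 2 * ((p : ℝ) + 1)⁻¹ := by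
    rw [← hsq]
    conv_rhs => rw [← himg k₀ hk₀]
    rw [Finset.sum_image fun a _ b _ hab => hinj k₀ hab]
  have hcard : (S.card : ℝ) ≤ 2 := by
    have h1 : (S.card : ℝ) * ((p : ℝ) + 1)⁻¹ ≤ 2 * ((p : ℝ) + 1)⁻¹ := by
      have h2 : ∑ x ∈ S, ‖ψ x‖ ^ 2 * ‖ψ (2 * x - k₀)‖ ^ 2 = S.card * ((p : ℝ) + 1)⁻¹ := by
        rw [Finset.sum_congr rfl fun x hx => hprod x (by
          rw [hS, Finset.mem_filter] at hx
          exact hx.2), Finset.sum_const, nsmul_eq_mul]
      have h3 : ∑ x ∈ S, ‖ψ x‖ ^ 2 * ‖ψ (2 * x - k₀)‖ ^ 2 ≤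
          ∑ x ∈ S, ((‖ψ x‖ ^ 2) ^ 2 + (‖ψ (2 * x - k₀)‖ ^ 2) ^ 2) / 2 := by
        apply Finset.sum_le_sum
        intro x _
        nlinarith [sq_nonneg (‖ψ x‖ ^ 2 - ‖ψ (2 * x - k₀)‖ ^ 2)]
      rw [← Finset.sum_div, Finset.sum_add_distrib, hsq, hsq', h2] at h3
      linarith
    exact le_of_mul_le_mul_right h1 (inv_pos.2 hp1)
  have h1 : (∑ x ∈ S, ‖ψ x‖ ^ 2) ^ 2 ≤ S.card * ∑ x ∈ S, (‖ψ x‖ ^ 2) ^ 2 :=
    sq_sum_le_card_mul_sum_sq
  rw [hsum, hsq] at h1
  have h2 : (1 : ℝ) ≤ 2 * (2 * ((p : ℝ) + 1)⁻¹) := by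
    have h3 : (0 : ℝ) ≤ 2 * ((p : ℝ) + 1)⁻¹ := by positivity
    have h4 := mul_le_mul_of_nonneg_right hcard h3
    linarith
  have h3 : (p : ℝ) + 1 ≤ 4 := by
    have h4 : 2 * (2 * ((p : ℝ) + 1)⁻¹) = 4 / ((p : ℝ) + 1) := by
      field_simp
      ring
    rw [h4, le_div_iff₀ hp1] at h2
    linarith
  have h4 : (5 : ℝ) ≤ p := by exact_mod_cast hp5
  linarith

end Pool.Agent.H774.IS
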