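import Pool.Agent.H774.IS.Kill

/-!
# Deformations are invariant
-/

set_option autoImplicit false

open Finset

namespace Pool.Agent.H774.IS

open Pool.Agent.Y387.SF Pool.Agent.Y387.MD

section Lin

variable {W : Type*} [AddCommGroup W] [Module ℂ W] [FiniteDimensional ℂ W]

/-- commuting operators have a common eigenvector -/
theorem simul [Nontrivial W] {P Q : Module.End ℂ W} (hPQ : Commute P Q) :
    ∃ (z : W) (l m : ℂ), z ≠ 0 ∧ P z = l • z ∧ Q z = m • z := by
  obtain ⟨l, hl⟩ := Module.End.exists_eigenvalue P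
  have hmaps : ∀ z ∈ Module.End.eigenspace P l, Q z ∈ Module.End.eigenspace P l := by
    intro z hz
    rw [Module.End.mem_eigenspace_iff] at hz ⊢
    have h1 : P (Q z) = Q (P z) := congrArg (fun F : Module.End ℂ W => F z) hPQ
    rw [h1, hz, map_smul]
  have hne : Nontrivial (Module.End.eigenspace P l) := by
    rw [Submodule.nontrivial_iff_ne_bot]
    exact hl
  obtain ⟨m, hm⟩ := Module.End.exists_eigenvalue (Q.restrict hmaps)
  obtain ⟨v, hv⟩ := hm.exists_hasEigenvector
  have hv1 := hv.apply_eq_smul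
  have hv2 : v ≠ 0 := hv.2
  refine ⟨v, l, m, fun h0 => hv2 (Subtype.ext h0), ?_, ?_⟩
  · exact Module.End.mem_eigenspace_iff.1 v.2
  · exact congrArg Subtype.val hv1

/-- an operator of finite order without nontrivial common eigenvectors is the identity -/
theorem lin {P Q : Module.End ℂ W} (hPQ : Commute P Q) {n : ℕ} (hn : n ≠ 0) (hPn : P ^ n = 1)
    (h : ∀ (z : W) (l m : ℂ), z ≠ 0 → P z = l • z → Q z = m • z → l = 1) : P = 1 := by
  by_contra hne
  set N := LinearMap.range (P - 1) with hN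
  have hN0 : N ≠ ⊥ := by
    intro h0
    rw [hN, LinearMap.range_eq_bot, sub_eq_zero] at h0
    exact hne h0
  have hNn : Nontrivial N := (Submodule.nontrivial_iff_ne_bot).2 hN0
  have hP : ∀ z ∈ N, P z ∈ N := by
    rintro _ ⟨y, rfl⟩
    refine ⟨P y, ?_⟩
    simp only [LinearMap.sub_apply, Module.End.one_apply, map_sub]
  have hQ : ∀ z ∈ N, Q z ∈ N := by
    rintro _ ⟨y, rfl⟩
    refine ⟨Q y, ?_⟩
    have h1 : P (Q y) = Q (P y) := congrArg (fun F : Module.End ℂ W => F y) hPQ
    simp only [LinearMap.sub_apply, Module.End.one_apply, map_sub, h1]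
  have hcomm : Commute (P.restrict hP) (Q.restrict hQ) := by
    apply LinearMap.ext
    intro y
    apply Subtype.ext
    exact congrArg (fun F : Module.End ℂ W => F y) hPQ
  obtain ⟨z, l, m, hz, h1, h2⟩ := simul hcomm
  have h1' : P z = l • (z : W) := congrArg Subtype.val h1
  have h2' : Q z = m • (z : W) := congrArg Subtype.val h2
  have hz' : (z : W) ≠ 0 := fun h0 => hz (Subtype.ext h0)
  have hl := h z l m hz' h1' h2'
  rw [hl, one_smul] at h1'
  obtain ⟨y, hy⟩ := z.2
  rw [LinearMap.sub_apply, Module.End.one_apply] at hy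
  have h3 : ∀ k : ℕ, (P ^ k) y = y + k • (z : W) := by
    intro k
    induction k with
    | zero => simp
    | succ k ih =>
      rw [pow_succ', Module.End.mul_apply, ih, map_add, map_nsmul, h1', succ_nsmul,
        ← hy]
      abel
  have h4 := h3 n
  rw [hPn, Module.End.one_apply] at h4
  have h5 : n • (z : W) = 0 := by
    have h6 : y + n • (z : W) = y + 0 := by rw [add_zero]; exact h4.symm
    exact add_left_cancel h6
  rw [← Nat.cast_smul_eq_nsmul ℂ] at h5
  rcases smul_eq_zero.1 h5 with h6 | h6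
  · exact hn (by exact_mod_cast h6)
  · exact hz' h6

end Lin

section Frame

variable {V : Type*} [NormedAddCommGroup V] [InnerProductSpace ℂ V] [FiniteDimensional ℂ V]
  {ι : Type*} [Fintype ι] [DecidableEq ι] {x : ι → V} {p : ℕ} [hp : Fact p.Prime]

/-- permutation of the indices -/
noncomputable def Pm (π : Equiv.Perm ι) : EuclideanSpace ℂ (ι × ι) →ₗ[ℂ] EuclideanSpace ℂ (ι × ι)
    where
  toFun z := WithLp.toLp 2 (fun q => z (π q.1, π q.2))
  map_add' u v := by
    ext q
    simp only [PiLp.add_apply]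
  map_smul' s u := by
    ext q
    simp only [PiLp.smul_apply, RingHom.id_apply]

omit [DecidableEq ι] in
theorem Pm_apply (π : Equiv.Perm ι) (z : EuclideanSpace ℂ (ι × ι)) (i j : ι) :
    Pm π z (i, j) = z (π i, π j) := rfl

omit [FiniteDimensional ℂ V] [DecidableEq ι] hp in
theorem Pm_mem (h : IsEtf p x) {U : V ≃ₗᵢ[ℂ] V} {π : Equiv.Perm ι} (hU : Ind x U π) {lam : ℂ}
    (z : EuclideanSpace ℂ (ι × ι)) (hz : z ∈ WZ (gm x) lam) : Pm π z ∈ WZ (gm x) lam := by
  obtain ⟨hz1, hz2⟩ := hz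
  refine ⟨fun i j => ?_, fun i j => hz2 _ _⟩
  rw [Pm_apply, ← hz1]
  symm
  refine Fintype.sum_equiv π.symm _ _ fun k => ?_
  rw [Pm_apply, Equiv.apply_symm_apply, ← ff_inv h hU i j (π.symm k), Equiv.apply_symm_apply]

/-- **Invariance of the deformations under the Weyl-Heisenberg group.** -/
theorem inv_pair (hp5 : 5 ≤ p) (h : IsEtf p x) (hcard : Fintype.card ι = p ^ 2)
    (hV : Module.finrank ℂ V = p) {A B : V ≃ₗᵢ[ℂ] V} {α β : Equiv.Perm ι} {ζ : ℂ}
    (hA : Ind x A α) (hB : Ind x B β) (hζ : ζ ≠ 1) (hζp : ζ ^ p = 1)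
    (hAB : ∀ v, A (B v) = ζ • B (A v)) {z : EuclideanSpace ℂ (ι × ι)}
    (hz : z ∈ WZ (gm x) ((p : ℂ) / (p + 1))) :
    (∀ i j, z (α i, α j) = z (i, j)) ∧ (∀ i j, z (β i, β j) = z (i, j)) := by
  obtain ⟨χ, ψ, T, σ, hχ, hsol, hT, hσα, hσβ⟩ := fid_pair h hcard hV hA hB hζ hζp hAB
  have hζ0 : ζ ≠ 0 := by
    rintro rfl
    rw [zero_pow hp.out.ne_zero] at hζp
    exact zero_ne_one hζp
  have hαβ : ∀ k, α (β k) = β (α k) := by
    intro k
    apply σ.injective
    rw [hσα, hσβ, hσβ, hσα, add_right_comm]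
  have hαp : ∀ n : ℕ, ∀ k, σ ((α ^ n) k) = σ k + (0, (n : ZMod p)) := by
    intro n
    induction n with
    | zero =>
      intro k
      have e0 : ((0 : ZMod p), ((0 : ℕ) : ZMod p)) = 0 := by ext <;> simp
      rw [e0, add_zero, pow_zero, Equiv.Perm.one_apply]
    | succ n ih =>
      intro k
      rw [pow_succ', Equiv.Perm.mul_apply, hσα, ih, add_assoc]
      congr 1
      ext <;> simp
  have hβp : ∀ n : ℕ, ∀ k, σ ((β ^ n) k) = σ k + ((n : ZMod p), 0) := by
    intro n
    induction n with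
    | zero =>
      intro k
      have e0 : (((0 : ℕ) : ZMod p), (0 : ZMod p)) = 0 := by ext <;> simp
      rw [e0, add_zero, pow_zero, Equiv.Perm.one_apply]
    | succ n ih =>
      intro k
      rw [pow_succ', Equiv.Perm.mul_apply, hσβ, ih, add_assoc]
      congr 1
      ext <;> simp
  have hα1 : α ^ p = 1 := by
    ext k
    apply σ.injective
    rw [hαp, Equiv.Perm.one_apply]
    have e0 : ((0 : ZMod p), ((p : ℕ) : ZMod p)) = 0 := by ext <;> simp
    rw [e0, add_zero]
  have hβ1 : β ^ p = 1 := by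
    ext k
    apply σ.injective
    rw [hβp, Equiv.Perm.one_apply]
    have e0 : (((p : ℕ) : ZMod p), (0 : ZMod p)) = 0 := by ext <;> simp
    rw [e0, add_zero]
  have hpow : ∀ (π : Equiv.Perm ι) (u : EuclideanSpace ℂ (ι × ι)) (l : ℂ),
      (∀ i j, u (π i, π j) = l * u (i, j)) → ∀ n : ℕ, ∀ i j,
        u ((π ^ n) i, (π ^ n) j) = l ^ n * u (i, j) := by
    intro π u l hu n
    induction n with
    | zero => intro i j; simp
    | succ n ih =>
      intro i j
      rw [pow_succ', Equiv.Perm.mul_apply, Equiv.Perm.mul_apply, hu, ih, pow_succ']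
      ring
  have hroot : ∀ (π : Equiv.Perm ι) (u : EuclideanSpace ℂ (ι × ι)) (l : ℂ), π ^ p = 1 → u ≠ 0 →
      (∀ i j, u (π i, π j) = l * u (i, j)) → l ^ p = 1 := by
    intro π u l hπ hu hul
    by_contra hne
    apply hu
    ext q
    have h1 := hpow π u l hul p q.1 q.2
    rw [hπ, Equiv.Perm.one_apply, Equiv.Perm.one_apply] at h1
    have h2 : (l ^ p - 1) * u (q.1, q.2) = 0 := by linear_combination -h1
    exact (mul_eq_zero.1 h2).resolve_left (sub_ne_zero.2 hne)
  -- common eigenvectors have trivial eigenvalues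
  have key : ∀ u ∈ WZ (gm x) ((p : ℂ) / (p + 1)), u ≠ 0 → ∀ l m : ℂ,
      (∀ i j, u (α i, α j) = l * u (i, j)) → (∀ i j, u (β i, β j) = m * u (i, j)) →
      l = 1 ∧ m = 1 := by
    intro u hu hu0 l m hl hm
    have hlp := hroot α u l hα1 hu0 hl
    have hmp := hroot β u m hβ1 hu0 hm
    have hm1 : m = 1 := by
      by_contra hm1
      have hprim : IsPrimitiveRoot m p := IsPrimitiveRoot.iff_orderOf.2 (orderOf_eq_prime hmp hm1)
      have hl0 : l ≠ 0 := by
        rintro rfl
        rw [zero_pow hp.out.ne_zero] at hlp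
        exact zero_ne_one hlp
      obtain ⟨k, _, hk⟩ := hprim.eq_pow_of_pow_eq_one (show (l⁻¹) ^ p = 1 by
        rw [inv_pow, hlp, inv_one])
      apply hu0
      apply kill hp5 h hcard hV (hA.mul (hB.pow k)) hB hζ hζp _ hu hm1 _ hm
      · intro v
        have h1 : ∀ n : ℕ, ∀ v, (B ^ n) (B v) = B ((B ^ n) v) := by
          intro n v
          change (B ^ n * B) v = (B * B ^ n) v
          rw [← pow_succ, ← pow_succ']
        change A ((B ^ k) (B v)) = ζ • B (A ((B ^ k) v))
        rw [h1, hAB]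
      · intro i j
        rw [Equiv.Perm.mul_apply, Equiv.Perm.mul_apply, hl, hpow β u m hm, hk, ← mul_assoc,
          mul_inv_cancel₀ hl0, one_mul]
    refine ⟨?_, hm1⟩
    by_contra hl1
    apply hu0
    have hζi : ζ⁻¹ ≠ 1 := by
      intro h0
      exact hζ (inv_eq_one.1 h0)
    apply kill hp5 h hcard hV hB hA hζi (by rw [inv_pow, hζp, inv_one]) _ hu hl1 _ hl
    · intro v
      rw [hAB, smul_smul, inv_mul_cancel₀ hζ0, one_smul]
    · intro i j
      rw [hm, hm1, one_mul]
  -- the operators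
  have hPa := Pm_mem (lam := (p : ℂ) / (p + 1)) h hA
  have hPb := Pm_mem (lam := (p : ℂ) / (p + 1)) h hB
  set P : Module.End ℂ (WZ (gm x) ((p : ℂ) / (p + 1))) := (Pm α).restrict hPa with hPdef
  set Q : Module.End ℂ (WZ (gm x) ((p : ℂ) / (p + 1))) := (Pm β).restrict hPb with hQdef
  have hPv : ∀ u i j, (P u : EuclideanSpace ℂ (ι × ι)) (i, j) =
      (u : EuclideanSpace ℂ (ι × ι)) (α i, α j) := fun u i j => rfl
  have hQv : ∀ u i j, (Q u : EuclideanSpace ℂ (ι × ι)) (i, j) =
      (u : EuclideanSpace ℂ (ι × ι)) (β i, β j) := fun u i j => rfl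
  have hcomm : Commute P Q := by
    apply LinearMap.ext
    intro u
    apply Subtype.ext
    ext ⟨i, j⟩
    change (u : EuclideanSpace ℂ (ι × ι)) (β (α i), β (α j)) =
      (u : EuclideanSpace ℂ (ι × ι)) (α (β i), α (β j))
    rw [hαβ, hαβ]
  have hPn : ∀ n : ℕ, ∀ u i j, ((P ^ n) u : EuclideanSpace ℂ (ι × ι)) (i, j) =
      (u : EuclideanSpace ℂ (ι × ι)) ((α ^ n) i, (α ^ n) j) := by
    intro n
    induction n with
    | zero => intro u i j; simp
    | succ n ih =>
      intro u i j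
      rw [pow_succ', Module.End.mul_apply, hPv, ih, pow_succ, Equiv.Perm.mul_apply,
        Equiv.Perm.mul_apply]
  have hQn : ∀ n : ℕ, ∀ u i j, ((Q ^ n) u : EuclideanSpace ℂ (ι × ι)) (i, j) =
      (u : EuclideanSpace ℂ (ι × ι)) ((β ^ n) i, (β ^ n) j) := by
    intro n
    induction n with
    | zero => intro u i j; simp
    | succ n ih =>
      intro u i j
      rw [pow_succ', Module.End.mul_apply, hQv, ih, pow_succ, Equiv.Perm.mul_apply,
        Equiv.Perm.mul_apply]
  have hP1 : P ^ p = 1 := by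
    apply LinearMap.ext
    intro u
    apply Subtype.ext
    ext ⟨i, j⟩
    rw [hPn, hα1, Equiv.Perm.one_apply, Equiv.Perm.one_apply, Module.End.one_apply]
  have hQ1 : Q ^ p = 1 := by
    apply LinearMap.ext
    intro u
    apply Subtype.ext
    ext ⟨i, j⟩
    rw [hQn, hβ1, Equiv.Perm.one_apply, Equiv.Perm.one_apply, Module.End.one_apply]
  have hkey : ∀ (u : WZ (gm x) ((p : ℂ) / (p + 1))) (l m : ℂ), u ≠ 0 → P u = l • u →
      Q u = m • u → l = 1 ∧ m = 1 := by
    intro u l m hu hl hm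
    refine key u u.2 (fun h0 => hu (Subtype.ext h0)) l m (fun i j => ?_) (fun i j => ?_)
    · rw [← hPv, hl]
      rfl
    · rw [← hQv, hm]
      rfl
  have hPid := lin hcomm hp.out.ne_zero hP1 (fun u l m hu hl hm => (hkey u l m hu hl hm).1)
  have hQid := lin hcomm.symm hp.out.ne_zero hQ1 (fun u l m hu hl hm => (hkey u m l hu hm hl).2)
  refine ⟨fun i j => ?_, fun i j => ?_⟩
  · have h1 := hPv ⟨z, hz⟩ i j
    rw [hPid, Module.End.one_apply] at h1
    exact h1.symm
  · have h1 := hQv ⟨z, hz⟩ i j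
    rw [hQid, Module.End.one_apply] at h1
    exact h1.symm

end Frame

end Pool.Agent.H774.IS
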