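import Pool.Agent.H774.IS.Pair
import Pool.Graph.R_pool_sql_team_seeded_1acbe0a2.Y387.MD.Dec

/-!
# No deformation with a nontrivial character
-/

set_option autoImplicit false

open Finset

namespace Pool.Agent.H774.IS

open Pool.Agent.Y387.SF Pool.Agent.Y387.MD

section Coord

variable {p : ℕ} [hp : Fact p.Prime]

/-- powers in a character -/
theorem exists_char {χ : AddChar (ZMod p) ℂ} (hχ : χ ≠ 1) {μ : ℂ} (hμ : μ ^ p = 1) (hμ1 : μ ≠ 1) :
    ∃ α : ZMod p, α ≠ 0 ∧ ∀ a : ZMod p, μ ^ a.val = χ (α * a) := by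
  have h1 : χ 1 ≠ 1 := by
    intro h0
    have h2 := char_injective hχ (h0.trans (AddChar.map_zero_eq_one χ).symm)
    exact one_ne_zero h2
  have h2 : χ 1 ^ p = 1 := char_pow χ 1
  have hprim : IsPrimitiveRoot (χ 1) p := IsPrimitiveRoot.iff_orderOf.2 (orderOf_eq_prime h2 h1)
  obtain ⟨i, _, hi⟩ := hprim.eq_pow_of_pow_eq_one hμ
  have h3 : χ (i : ZMod p) = μ := by
    rw [← hi, ← AddChar.map_nsmul_eq_pow, nsmul_eq_mul, mul_one]
  refine ⟨(i : ZMod p), ?_, fun a => ?_⟩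
  · intro h0
    apply hμ1
    rw [← h3, h0, AddChar.map_zero_eq_one]
  · rw [char_mul, h3]

/-- iteration of the quasi-invariance -/
theorem iter {z : ZMod p × ZMod p → ZMod p × ZMod p → ℂ} {μ : ℂ}
    (h1 : ∀ g g', z (g + (0, 1)) (g' + (0, 1)) = z g g')
    (h2 : ∀ g g', z (g + (1, 0)) (g' + (1, 0)) = μ * z g g') (n m : ℕ) (g g' : ZMod p × ZMod p) :
    z (g + ((n : ZMod p), (m : ZMod p))) (g' + ((n : ZMod p), (m : ZMod p))) = μ ^ n * z g g' := by
  have h3 : ∀ m : ℕ, ∀ g g', z (g + (0, (m : ZMod p))) (g' + (0, (m : ZMod p))) = z g g' := by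
    intro m
    induction m with
    | zero =>
      intro g g'
      have e0 : ((0 : ZMod p), ((0 : ℕ) : ZMod p)) = 0 := by ext <;> simp
      rw [e0, add_zero, add_zero]
    | succ m ih =>
      intro g g'
      have e1 : ((0 : ZMod p), ((m + 1 : ℕ) : ZMod p)) = (0, (m : ZMod p)) + (0, 1) := by
        ext <;> simp
      rw [e1, ← add_assoc, ← add_assoc, h1, ih]
  have h4 : ∀ n : ℕ, ∀ g g', z (g + ((n : ZMod p), 0)) (g' + ((n : ZMod p), 0)) =
      μ ^ n * z g g' := by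
    intro n
    induction n with
    | zero =>
      intro g g'
      have e0 : (((0 : ℕ) : ZMod p), (0 : ZMod p)) = 0 := by ext <;> simp
      rw [e0, add_zero, add_zero, pow_zero, one_mul]
    | succ n ih =>
      intro g g'
      have e1 : (((n + 1 : ℕ) : ZMod p), (0 : ZMod p)) = ((n : ZMod p), 0) + (1, 0) := by
        ext <;> simp
      rw [e1, ← add_assoc, ← add_assoc, h2, ih, pow_succ]
      ring
  have e1 : ((n : ZMod p), (m : ZMod p)) = ((n : ZMod p), 0) + (0, (m : ZMod p)) := by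
    ext <;> simp
  rw [e1, ← add_assoc, ← add_assoc, h3, h4]

theorem iter' {z : ZMod p × ZMod p → ZMod p × ZMod p → ℂ} {μ : ℂ}
    (h1 : ∀ g g', z (g + (0, 1)) (g' + (0, 1)) = z g g')
    (h2 : ∀ g g', z (g + (1, 0)) (g' + (1, 0)) = μ * z g g') (s g g' : ZMod p × ZMod p) :
    z (g + s) (g' + s) = μ ^ s.1.val * z g g' := by
  have h3 := iter h1 h2 s.1.val s.2.val g g'
  rwa [ZMod.natCast_zmod_val, ZMod.natCast_zmod_val] at h3

/-- the sums along the second coordinate -/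
theorem inner_expand (χ : AddChar (ZMod p) ℂ) (ψ Y : ZMod p → ℂ) (a b : ZMod p) :
    inner ℂ (Dv χ ψ 0 0) (Dv χ ψ a b) * inner ℂ (Dv χ ψ a b) (WithLp.toLp 2 Y) =
      ∑ v, χ (b * v) * VV ψ Y (-a) v := by
  have e1 : inner ℂ (Dv χ ψ 0 0) (Dv χ ψ a b) = ∑ j, χ (b * j) * (ψ (j - a) * cj ψ j) := by
    rw [PiLp.inner_apply]
    refine Finset.sum_congr rfl fun j _ => ?_
    rw [Dv_apply, Dv_apply, RCLike.inner_apply, zero_mul, AddChar.map_zero_eq_one, one_mul,
      sub_zero]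
    ring
  have e2 : inner ℂ (Dv χ ψ a b) (WithLp.toLp 2 Y) = ∑ k, χ (-(b * k)) * (cj ψ (k - a) * Y k) := by
    rw [PiLp.inner_apply]
    refine Finset.sum_congr rfl fun k _ => ?_
    rw [Dv_apply, RCLike.inner_apply, map_mul, AddChar.map_neg_eq_conj]
    ring
  rw [e1, e2, Finset.sum_mul_sum, Finset.sum_comm]
  have e3 : ∀ v, χ (b * v) * VV ψ Y (-a) v =
      ∑ k, χ (b * v) * (Y k * (cj ψ (k + -a) * cj ψ (k + v) * ψ (k + -a + v))) := by
    intro v
    unfold VV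
    rw [Finset.mul_sum]
  simp_rw [e3]
  rw [Finset.sum_comm (s := (univ : Finset (ZMod p))) (t := (univ : Finset (ZMod p)))
    (f := fun v k => χ (b * v) * (Y k * (cj ψ (k + -a) * cj ψ (k + v) * ψ (k + -a + v))))]
  refine Finset.sum_congr rfl fun k _ => ?_
  symm
  refine Fintype.sum_equiv (Equiv.addLeft k) _ _ fun v => ?_
  rw [Equiv.coe_addLeft]
  have e4 : χ (b * v) = χ (b * (k + v)) * χ (-(b * k)) := by
    rw [← AddChar.map_add_eq_mul]
    congr 1
    ring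
  have e5 : k + -a + v = k + v - a := by ring
  have e6 : k + -a = k - a := by ring
  rw [e4, e5, e6]
  ring

/-- Fourier coefficients determine a function -/
theorem ft_zero {χ : AddChar (ZMod p) ℂ} (hχ : χ ≠ 1) {f : ZMod p → ℂ}
    (h : ∀ b, ∑ v, χ (b * v) * f v = 0) : f = 0 := by
  have hp0 : (p : ℂ) ≠ 0 := by exact_mod_cast hp.out.ne_zero
  funext i
  have h1 := ft_inv hχ f i
  have h2 : ∀ b, ft χ f b = 0 := by
    intro b
    rw [← h b]
    unfold ft
    refine Finset.sum_congr rfl fun v _ => mul_comm _ _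
  simp_rw [h2, zero_mul, Finset.sum_const_zero] at h1
  exact (mul_eq_zero.1 h1.symm).resolve_left hp0

/-- **The main lemma in coordinates.** -/
theorem coord_zero (hp5 : 5 ≤ p) {χ : AddChar (ZMod p) ℂ} {ψ : ZMod p → ℂ} (hχ : χ ≠ 1)
    (h : IsSol χ ψ (cj ψ)) {z : ZMod p × ZMod p → ZMod p × ZMod p → ℂ} {μ : ℂ}
    (h1 : ∀ g g', z (g + (0, 1)) (g' + (0, 1)) = z g g')
    (h2 : ∀ g g', z (g + (1, 0)) (g' + (1, 0)) = μ * z g g') (hμ : μ ≠ 1)
    (h3 : ∀ g g', z g' g = -z g g') (Y : ZMod p → ℂ)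
    (hY : ∀ g : ZMod p × ZMod p, z 0 g = inner ℂ (Dv χ ψ 0 0) (Dv χ ψ g.1 g.2) *
      inner ℂ (Dv χ ψ g.1 g.2) (WithLp.toLp 2 Y)) (g g' : ZMod p × ZMod p) : z g g' = 0 := by
  by_contra hne
  have hμp : μ ^ p = 1 := by
    have h4 := iter h1 h2 p 0 g g'
    have e1 : (((p : ℕ) : ZMod p), ((0 : ℕ) : ZMod p)) = 0 := by
      ext <;> simp
    rw [e1, add_zero, add_zero] at h4
    have h5 : (μ ^ p - 1) * z g g' = 0 := by linear_combination -h4
    exact sub_eq_zero.1 ((mul_eq_zero.1 h5).resolve_right hne)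
  obtain ⟨α, hα, hαμ⟩ := exists_char hχ hμp hμ
  have hR : ∀ m : ZMod p × ZMod p, z 0 m = -(χ (α * m.1) * z 0 (-m)) := by
    intro m
    rw [h3 m 0]
    have h4 := iter' h1 h2 m 0 (-m)
    rw [zero_add, neg_add_cancel, hαμ] at h4
    rw [h4]
  have hA : ∀ u v, VV ψ Y (-u) v = -(χ (α * u) * VV ψ Y u (-v)) := by
    intro u v
    have h4 : (fun v => VV ψ Y (-u) v + χ (α * u) * VV ψ Y u (-v)) = 0 := by
      apply ft_zero hχ
      intro b
      have h5 := hR (u, b)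
      rw [hY, hY, inner_expand, inner_expand] at h5
      simp only [Prod.fst_neg, Prod.snd_neg, neg_neg] at h5
      have h6 : ∑ v, χ (b * v) * VV ψ Y u (-v) = ∑ v, χ (-b * v) * VV ψ Y u v := by
        refine Fintype.sum_equiv (Equiv.neg _) _ _ fun v => ?_
        simp
      simp_rw [mul_add, Finset.sum_add_distrib]
      rw [h5]
      have h7 : ∑ v, χ (b * v) * (χ (α * u) * VV ψ Y u (-v)) =
          χ (α * u) * ∑ v, χ (b * v) * VV ψ Y u (-v) := by
        rw [Finset.mul_sum]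
        refine Finset.sum_congr rfl fun v _ => ?_
        ring
      rw [h7, h6]
      ring
    have h5 := congrFun h4 v
    simp only [Pi.zero_apply] at h5
    linear_combination h5
  have hY0 := Y_zero hp5 hχ h hα hA
  apply hne
  have h4 := iter' h1 h2 g 0 (g' - g)
  rw [zero_add, sub_add_cancel, hY, hY0] at h4
  rw [h4]
  have h5 : (WithLp.toLp 2 (0 : ZMod p → ℂ) : EuclideanSpace ℂ (ZMod p)) = 0 := rfl
  rw [h5, inner_zero_right, mul_zero, mul_zero]

end Coord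

section Frame

variable {V : Type*} [NormedAddCommGroup V] [InnerProductSpace ℂ V] [FiniteDimensional ℂ V]
  {ι : Type*} [Fintype ι] [DecidableEq ι] {x : ι → V} {p : ℕ} [hp : Fact p.Prime]

omit [FiniteDimensional ℂ V] [DecidableEq ι] [Fintype ι] in
theorem gm_phase {U : V ≃ₗᵢ[ℂ] V} {i j i' j' : ι} {c c' : ℂ} (hi : U (x i) = c • x i')
    (hj : U (x j) = c' • x j') : gm x i j = (starRingEnd ℂ) c * c' * gm x i' j' := by
  unfold gm
  rw [← U.inner_map_map, hi, hj, inner_smul_left, inner_smul_right]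
  ring

omit [FiniteDimensional ℂ V] [DecidableEq ι] [Fintype ι] in
theorem conj_mul_self_of_norm {c : ℂ} (hc : ‖c‖ = 1) : (starRingEnd ℂ) c * c = 1 := by
  rw [mul_comm, Complex.mul_conj, Complex.normSq_eq_norm_sq, hc]
  simp

omit [FiniteDimensional ℂ V] [DecidableEq ι] [Fintype ι] hp in
/-- the kernel is invariant under symmetries -/
theorem ff_inv (h : IsEtf p x) {U : V ≃ₗᵢ[ℂ] V} {π : Equiv.Perm ι} (hU : Ind x U π) (i j k : ι) :
    ff (gm x) (π i) (π j) (π k) = ff (gm x) i j k := by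
  obtain ⟨a, ha⟩ := hU i
  obtain ⟨b, hb⟩ := hU j
  obtain ⟨c, hc⟩ := hU k
  have ha1 := conj_mul_self_of_norm (ind_norm h ha)
  have hb1 := conj_mul_self_of_norm (ind_norm h hb)
  have hc1 := conj_mul_self_of_norm (ind_norm h hc)
  unfold ff
  rw [gm_phase ha hb, gm_phase hb hc, gm_phase hc ha, gm_phase hb ha, gm_phase ha hc]
  have e1 : (starRingEnd ℂ) a * b * gm x (π i) (π j) * ((starRingEnd ℂ) b * c * gm x (π j) (π k)) *
      ((starRingEnd ℂ) c * a * gm x (π k) (π i)) = ((starRingEnd ℂ) a * a) *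
      ((starRingEnd ℂ) b * b) * ((starRingEnd ℂ) c * c) *
      (gm x (π i) (π j) * gm x (π j) (π k) * gm x (π k) (π i)) := by ring
  have e2 : (starRingEnd ℂ) a * b * gm x (π i) (π j) * ((starRingEnd ℂ) b * a * gm x (π j) (π i)) *
      ((starRingEnd ℂ) a * c * gm x (π i) (π k) * ((starRingEnd ℂ) c * a * gm x (π k) (π i))) =
      ((starRingEnd ℂ) a * a) * ((starRingEnd ℂ) b * b) *
      (((starRingEnd ℂ) a * a) * ((starRingEnd ℂ) c * c)) *
      (gm x (π i) (π j) * gm x (π j) (π i) * (gm x (π i) (π k) * gm x (π k) (π i))) := by ring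
  rw [e1, e2, ha1, hb1, hc1]
  ring

omit [DecidableEq ι] in
/-- **The main lemma for frames.** -/
theorem kill (hp5 : 5 ≤ p) (h : IsEtf p x) (hcard : Fintype.card ι = p ^ 2)
    (hV : Module.finrank ℂ V = p) {A B : V ≃ₗᵢ[ℂ] V} {α β : Equiv.Perm ι} {ζ : ℂ}
    (hA : Ind x A α) (hB : Ind x B β) (hζ : ζ ≠ 1) (hζp : ζ ^ p = 1)
    (hAB : ∀ v, A (B v) = ζ • B (A v)) {z : EuclideanSpace ℂ (ι × ι)}
    (hz : z ∈ WZ (gm x) ((p : ℂ) / (p + 1))) {μ : ℂ} (hμ : μ ≠ 1)
    (h1 : ∀ i j, z (α i, α j) = z (i, j)) (h2 : ∀ i j, z (β i, β j) = μ * z (i, j)) : z = 0 := by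
  have hp1 : (p : ℂ) + 1 ≠ 0 := by exact_mod_cast p.succ_ne_zero
  have hp0 : (p : ℂ) ≠ 0 := by exact_mod_cast hp.out.ne_zero
  have hlam : (p : ℂ) / (p + 1) ≠ 0 := div_ne_zero hp0 hp1
  obtain ⟨χ, ψ, T, σ, hχ, hsol, hT, hσα, hσβ⟩ := fid_pair h hcard hV hA hB hζ hζp hAB
  obtain ⟨hz1, hz2⟩ := hz
  set i₀ := σ.symm 0 with hi₀
  obtain ⟨c₀, hc₀, hc₀'⟩ := hT i₀
  rw [hi₀, Equiv.apply_symm_apply, ← hi₀] at hc₀'
  set Y' : V := ∑ k, (gm x k i₀ * z (i₀, k)) • x k -
    (∑ k, (gm x i₀ k * gm x k i₀) * z (i₀, k)) • x i₀ with hY'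
  have hrow : ∀ j, (p : ℂ) / (p + 1) * z (i₀, j) = gm x i₀ j * inner ℂ (x j) Y' := by
    intro j
    rw [← hz1, hY', inner_sub_right, inner_sum, inner_smul_right]
    simp_rw [inner_smul_right]
    have e1 : ∀ k, ff (gm x) i₀ j k * z (i₀, k) = gm x i₀ j * (gm x k i₀ * z (i₀, k) *
        gm x j k) - gm x i₀ j * gm x j i₀ * ((gm x i₀ k * gm x k i₀) * z (i₀, k)) := by
      intro k
      unfold ff
      ring
    simp_rw [e1]
    rw [Finset.sum_sub_distrib, ← Finset.mul_sum, ← Finset.mul_sum]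
    unfold gm
    ring
  set Y : ZMod p → ℂ := fun k => ((p : ℂ) / (p + 1))⁻¹ * (starRingEnd ℂ) c₀ * (T Y') k with hYdef
  have hcoord := coord_zero hp5 hχ hsol (z := fun g g' => z (σ.symm g, σ.symm g')) (μ := μ)
    (fun g g' => by
      have h3 : ∀ g, σ.symm (g + (0, 1)) = α (σ.symm g) := by
        intro g
        rw [Equiv.symm_apply_eq, hσα, Equiv.apply_symm_apply]
      simp only
      rw [h3, h3, h1])
    (fun g g' => by
      have h3 : ∀ g, σ.symm (g + (1, 0)) = β (σ.symm g) := by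
        intro g
        rw [Equiv.symm_apply_eq, hσβ, Equiv.apply_symm_apply]
      simp only
      rw [h3, h3, h2]) hμ (fun g g' => hz2 _ _) Y (fun g => by
      simp only
      rw [← hi₀]
      obtain ⟨c, hc, hc'⟩ := hT (σ.symm g)
      rw [Equiv.apply_symm_apply] at hc'
      have e1 : (p : ℂ) / (p + 1) * z (i₀, σ.symm g) = (starRingEnd ℂ) c₀ *
          (inner ℂ (Dv χ ψ 0 0) (Dv χ ψ g.1 g.2) * inner ℂ (Dv χ ψ g.1 g.2) (T Y')) := by
        rw [hrow]
        unfold gm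
        rw [← T.inner_map_map, ← T.inner_map_map (x (σ.symm g)) Y', hc', hc₀']
        simp only [inner_smul_left, inner_smul_right, Prod.fst_zero, Prod.snd_zero]
        have e2 := conj_mul_self_of_norm hc
        calc _ = ((starRingEnd ℂ) c * c) * ((starRingEnd ℂ) c₀ *
            (inner ℂ (Dv χ ψ 0 0) (Dv χ ψ g.1 g.2) * inner ℂ (Dv χ ψ g.1 g.2) (T Y'))) := by ring
          _ = _ := by rw [e2, one_mul]
      have e3 : (WithLp.toLp 2 Y : EuclideanSpace ℂ (ZMod p)) =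
          (((p : ℂ) / (p + 1))⁻¹ * (starRingEnd ℂ) c₀) • T Y' := by
        ext k
        rw [PiLp.smul_apply, smul_eq_mul]
      rw [e3, inner_smul_right]
      have e4 : z (i₀, σ.symm g) = ((p : ℂ) / (p + 1))⁻¹ *
          ((p : ℂ) / (p + 1) * z (i₀, σ.symm g)) := by
        rw [inv_mul_cancel_left₀ hlam]
      rw [e4, e1]
      ring)
  ext q
  have h4 := hcoord (σ q.1) (σ q.2)
  simp only [Equiv.symm_apply_apply] at h4
  exact h4

end Frame

end Pool.Agent.H774.IS
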