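import Pool.Agent.H774.IS.Seq
import Pool.Graph.R_seed8.Y387.SF.Class

/-!
# Symmetric maximal equiangular tight frames in prime dimension are isolated
-/

set_option autoImplicit false

open Finset Filter Topology

namespace Pool.Agent.H774.IS

open Pool.Agent.Y387.SF Pool.Agent.Y387.MD

section General

variable {V : Type*} [NormedAddCommGroup V] [InnerProductSpace ℂ V]
  {ι : Type*} {x y : ι → V} {d : ℕ}

theorem tp_equiv {U : V ≃ₗᵢ[ℂ] V} (h : ∀ k, ∃ c : ℂ, ‖c‖ = 1 ∧ U (y k) = c • x k) (i j k : ι) :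
    tp y i j k = tp x i j k := by
  obtain ⟨a, ha1, ha⟩ := h i
  obtain ⟨b, hb1, hb⟩ := h j
  obtain ⟨c, hc1, hc⟩ := h k
  have ha2 := conj_mul_self_of_norm ha1
  have hb2 := conj_mul_self_of_norm hb1
  have hc2 := conj_mul_self_of_norm hc1
  have e0 : ∀ i j (a b : ℂ), U (y i) = a • x i → U (y j) = b • x j →
      gm y i j = (starRingEnd ℂ) a * b * gm x i j := by
    intro i j a b ha hb
    unfold gm
    rw [← U.inner_map_map, ha, hb, inner_smul_left, inner_smul_right]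
    ring
  unfold tp
  rw [e0 i j a b ha hb, e0 j k b c hb hc, e0 k i c a hc ha]
  have e1 : (starRingEnd ℂ) a * b * gm x i j * ((starRingEnd ℂ) b * c * gm x j k) *
      ((starRingEnd ℂ) c * a * gm x k i) = ((starRingEnd ℂ) a * a) *
      ((starRingEnd ℂ) b * b) * ((starRingEnd ℂ) c * c) *
      (gm x i j * gm x j k * gm x k i) := by ring
  rw [e1, ha2, hb2, hc2]
  ring

variable [FiniteDimensional ℂ V] [Fintype ι] [DecidableEq ι]

/-- **The triple products determine a frame.** -/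
theorem gram_equiv (hx : IsEtf d x) (hy : IsEtf d y) (hd : 1 ≤ d)
    (hcard : Fintype.card ι = d ^ 2) (hV : Module.finrank ℂ V = d)
    (h : ∀ i j k, tp y i j k = tp x i j k) :
    ∃ U : V ≃ₗᵢ[ℂ] V, ∀ k, ∃ c : ℂ, ‖c‖ = 1 ∧ U (y k) = c • x k := by
  have hd0 : (d : ℂ) ≠ 0 := by
    have : d ≠ 0 := by omega
    exact_mod_cast this
  have hne : Nonempty ι := by
    rw [← Fintype.card_pos_iff, hcard]
    positivity
  obtain ⟨o⟩ := hne
  set u : ι → ℂ := fun i => uu x o y i with hu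
  have hu1 : ∀ i, (starRingEnd ℂ) (u i) * u i = 1 := fun i => uu_mul hx hy o i
  have hun : ∀ i, ‖u i‖ = 1 := by
    intro i
    have h1 := hu1 i
    rw [mul_comm, Complex.mul_conj, Complex.normSq_eq_norm_sq] at h1
    have h2 : ‖u i‖ ^ 2 = 1 := by exact_mod_cast h1
    exact (pow_eq_one_iff_of_nonneg (norm_nonneg _) two_ne_zero).1 h2
  set y' : ι → V := fun i => (starRingEnd ℂ) (u i) • y i with hy'
  have hG : ∀ i j, inner ℂ (y' i) (y' j) = inner ℂ (x i) (x j) := by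
    intro i j
    have h1 : Gn x o y i j = Gn x o x i j := by
      unfold Gn
      rw [h]
    rw [Gn_self hx, Gn_eq] at h1
    rw [hy']
    simp only [inner_smul_left, inner_smul_right, Complex.conj_conj]
    change _ = gm x i j
    rw [← h1]
    unfold gm
    ring
  have hye : IsEtf d y' := by
    refine ⟨fun i => ?_, fun i j hij => ?_⟩
    · rw [hy']
      simp only
      rw [norm_smul, RCLike.norm_conj, hun, one_mul, hy.nrm]
    · rw [hG, hx.ang i j hij]
  set L : V →ₗ[ℂ] V := (d : ℂ)⁻¹ • ∑ k, (LinearMap.toSpanSingleton ℂ V (x k)) ∘ₗ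
    (innerₛₗ ℂ (y' k)) with hL
  have hLv : ∀ v, L v = (d : ℂ)⁻¹ • ∑ k, inner ℂ (y' k) v • x k := by
    intro v
    rw [hL]
    simp only [LinearMap.smul_apply, LinearMap.sum_apply, LinearMap.comp_apply,
      LinearMap.toSpanSingleton_apply, innerₛₗ_apply_apply]
  have hLin : ∀ v w, inner ℂ (L v) (L w) = inner ℂ v w := by
    intro v w
    rw [hLv, hLv]
    simp only [inner_smul_left, inner_smul_right, sum_inner, inner_sum, map_inv₀,
      Complex.conj_natCast]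
    have e1 : ∀ k, ∑ l, (starRingEnd ℂ) (inner ℂ (y' l) v) *
        (inner ℂ (y' k) w * inner ℂ (x l) (x k)) = (d : ℂ) * (inner ℂ (y' k) w *
        inner ℂ v (y' k)) := by
      intro k
      have e2 := frame_inner hye hd hcard hV v (y' k)
      calc _ = inner ℂ (y' k) w * ∑ l, inner ℂ v (y' l) * inner ℂ (y' l) (y' k) := by
            rw [Finset.mul_sum]
            refine Finset.sum_congr rfl fun l _ => ?_
            rw [← hG, inner_conj_symm]
            ring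
        _ = _ := by rw [e2]; ring
    have e3 : ∑ k, inner ℂ (y' k) w * inner ℂ v (y' k) = (d : ℂ) * inner ℂ v w := by
      rw [← frame_inner hye hd hcard hV v w]
      refine Finset.sum_congr rfl fun k _ => mul_comm _ _
    have e4 : ∀ k, inner ℂ (y' k) w * ((d : ℂ)⁻¹ * ∑ l, (starRingEnd ℂ) (inner ℂ (y' l) v) *
        inner ℂ (x l) (x k)) = (d : ℂ)⁻¹ * ∑ l, (starRingEnd ℂ) (inner ℂ (y' l) v) *
        (inner ℂ (y' k) w * inner ℂ (x l) (x k)) := by
      intro k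
      rw [Finset.mul_sum, Finset.mul_sum, Finset.mul_sum]
      refine Finset.sum_congr rfl fun l _ => ?_
      ring
    simp_rw [e4, e1]
    have e5 : ∀ k, (d : ℂ)⁻¹ * ((d : ℂ) * (inner ℂ (y' k) w * inner ℂ v (y' k))) =
        inner ℂ (y' k) w * inner ℂ v (y' k) := fun k => inv_mul_cancel_left₀ hd0 _
    simp_rw [e5]
    rw [e3, inv_mul_cancel_left₀ hd0]
  have hLy : ∀ k, L (y' k) = x k := by
    intro k
    rw [hLv]
    simp_rw [hG]
    rw [frame hx hd hcard hV, smul_smul, inv_mul_cancel₀ hd0, one_smul]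
  set U : V ≃ₗᵢ[ℂ] V := (L.isometryOfInner hLin).toLinearIsometryEquiv rfl with hU
  refine ⟨U, fun k => ⟨u k, hun k, ?_⟩⟩
  have h1 : y k = u k • y' k := by
    rw [hy']
    simp only
    rw [smul_smul, mul_comm, hu1, one_smul]
  have h2 : U (y' k) = x k := hLy k
  rw [h1, map_smul, h2]

end General

section Prime

variable {p : ℕ} [hp : Fact p.Prime]

/-- the symmetries `α^m β^n` act transitively -/
theorem trans_pair {V : Type*} [NormedAddCommGroup V] [InnerProductSpace ℂ V]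
    [FiniteDimensional ℂ V] {ι : Type*} [Fintype ι] {x : ι → V} (h : IsEtf p x)
    (hcard : Fintype.card ι = p ^ 2) (hV : Module.finrank ℂ V = p) {A B : V ≃ₗᵢ[ℂ] V}
    {α β : Equiv.Perm ι} {ζ : ℂ} (hA : Ind x A α) (hB : Ind x B β) (hζ : ζ ≠ 1)
    (hζp : ζ ^ p = 1) (hAB : ∀ v, A (B v) = ζ • B (A v)) (i j : ι) :
    ∃ m n : ℕ, (α ^ m * β ^ n) i = j := by
  obtain ⟨χ, ψ, T, σ, hχ, hsol, hT, hσα, hσβ⟩ := fid_pair h hcard hV hA hB hζ hζp hAB
  have hαp : ∀ n : ℕ, ∀ k, σ ((α ^ n) k) = σ k + (0, (n : ZMod p)) := by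
    intro n
    induction n with
    | zero =>
      intro k
      have e0 : ((0 : ZMod p), ((0 : ℕ) : ZMod p)) = 0 := by ext <;> simp
      rw [e0, add_zero, pow_zero, Equiv.Perm.one_apply]
    | succ n ih =>
      intro k
      rw [pow_succ', Equiv.Perm.mul_apply, hσα, ih, add_assoc]
      congr 1
      ext <;> simp
  have hβp : ∀ n : ℕ, ∀ k, σ ((β ^ n) k) = σ k + ((n : ZMod p), 0) := by
    intro n
    induction n with
    | zero =>
      intro k
      have e0 : (((0 : ℕ) : ZMod p), (0 : ZMod p)) = 0 := by ext <;> simp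
      rw [e0, add_zero, pow_zero, Equiv.Perm.one_apply]
    | succ n ih =>
      intro k
      rw [pow_succ', Equiv.Perm.mul_apply, hσβ, ih, add_assoc]
      congr 1
      ext <;> simp
  refine ⟨(σ j - σ i).2.val, (σ j - σ i).1.val, σ.injective ?_⟩
  rw [Equiv.Perm.mul_apply, hαp, hβp, ZMod.natCast_zmod_val, ZMod.natCast_zmod_val, add_assoc]
  have e1 : ((σ j - σ i).1, (0 : ZMod p)) + (0, (σ j - σ i).2) = σ j - σ i := by
    ext <;> simp
  rw [e1, add_sub_cancel]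

/-- **A symmetric frame is isolated.** -/
theorem iso (hp5 : 5 ≤ p) {x : Fin (p ^ 2) → EuclideanSpace ℂ (Fin p)} (h : IsEtf p x)
    (htr : ∀ i j, ∃ (U : EuclideanSpace ℂ (Fin p) ≃ₗᵢ[ℂ] EuclideanSpace ℂ (Fin p))
      (π : Equiv.Perm (Fin (p ^ 2))), Ind x U π ∧ π i = j) :
    ∃ ε > 0, ∀ y : Fin (p ^ 2) → EuclideanSpace ℂ (Fin p), IsEtf p y →
      (∀ i j k, ‖tp y i j k - tp x i j k‖ < ε) →
      ∃ U : EuclideanSpace ℂ (Fin p) ≃ₗᵢ[ℂ] EuclideanSpace ℂ (Fin p),
        ∀ k, ∃ c : ℂ, ‖c‖ = 1 ∧ U (y k) = c • x k := by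
  have hcard : Fintype.card (Fin (p ^ 2)) = p ^ 2 := Fintype.card_fin _
  have hV : Module.finrank ℂ (EuclideanSpace ℂ (Fin p)) = p := finrank_euclideanSpace_fin
  have hd : 1 ≤ p := by omega
  obtain ⟨A, B, α, β, ζ, hA, hB, hζ, hζp, hAB⟩ := exists_pair h hcard hV htr
  have hinv := fun (z : EuclideanSpace ℂ (Fin (p ^ 2) × Fin (p ^ 2)))
    (hz : z ∈ WZ (gm x) ((p : ℂ) / (p + 1))) => inv_pair hp5 h hcard hV hA hB hζ hζp hAB hz
  obtain ⟨ε₁, hε₁, h₁⟩ := near_inv h hd hcard hV hA fun z hz => (hinv z hz).1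
  obtain ⟨ε₂, hε₂, h₂⟩ := near_inv h hd hcard hV hB fun z hz => (hinv z hz).2
  obtain ⟨S, hS, hS1, hS2⟩ := classify (p := p) hp5
  set F : Set (Fin (p ^ 2) → Fin (p ^ 2) → Fin (p ^ 2) → ℂ) := (tp '' S) \ {tp x} with hF
  have hFfin : F.Finite := (hS.image _).subset Set.sdiff_subset
  have hopen : IsOpen Fᶜ := hFfin.isClosed.isOpen_compl
  have hmem : tp x ∈ Fᶜ := fun h0 => h0.2 rfl
  obtain ⟨ε₃, hε₃, h₃⟩ := Metric.isOpen_iff.1 hopen _ hmem
  refine ⟨min ε₁ (min ε₂ ε₃), lt_min hε₁ (lt_min hε₂ hε₃), fun y hy hyx => ?_⟩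
  have hα := h₁ y hy fun i j k => (hyx i j k).trans_le (min_le_left _ _)
  have hβ := h₂ y hy fun i j k => (hyx i j k).trans_le
    ((min_le_right _ _).trans (min_le_left _ _))
  have hyx₃ := fun i j k => (hyx i j k).trans_le ((min_le_right _ _).trans (min_le_right _ _))
  have hsym : ∀ π : Equiv.Perm (Fin (p ^ 2)),
      (∀ i j k, tp y (π i) (π j) (π k) = tp y i j k) →
      ∃ U : EuclideanSpace ℂ (Fin p) ≃ₗᵢ[ℂ] EuclideanSpace ℂ (Fin p), Ind y U π := by
    intro π hπ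
    obtain ⟨U, hU⟩ := gram_equiv (etf_perm hy π) hy hd hcard hV (fun i j k => (hπ i j k).symm)
    refine ⟨U, fun k => ?_⟩
    obtain ⟨c, _, hc⟩ := hU k
    exact ⟨c, hc⟩
  obtain ⟨Ua, hUa⟩ := hsym α hα
  obtain ⟨Ub, hUb⟩ := hsym β hβ
  have htry : ∀ i j, ∃ (U : EuclideanSpace ℂ (Fin p) ≃ₗᵢ[ℂ] EuclideanSpace ℂ (Fin p))
      (π : Equiv.Perm (Fin (p ^ 2))), Ind y U π ∧ π i = j := by
    intro i j
    obtain ⟨m, n, hmn⟩ := trans_pair h hcard hV hA hB hζ hζp hAB i j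
    exact ⟨Ua ^ m * Ub ^ n, α ^ m * β ^ n, (hUa.pow m).mul (hUb.pow n), hmn⟩
  obtain ⟨s, hs, U, hU⟩ := hS2 y hy htry
  have hys : tp y = tp s := by
    funext i j k
    exact tp_equiv hU i j k
  have hyF : tp y ∈ Fᶜ := by
    apply h₃
    rw [Metric.mem_ball, dist_pi_lt_iff hε₃]
    intro i
    rw [dist_pi_lt_iff hε₃]
    intro j
    rw [dist_pi_lt_iff hε₃]
    intro k
    rw [dist_eq_norm]
    exact hyx₃ i j k
  have hyx' : tp y = tp x := by
    by_contra hne
    exact hyF ⟨⟨s, hs, hys.symm⟩, hne⟩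
  exact gram_equiv h hy hd hcard hV fun i j k => by rw [hyx']

end Prime

end Pool.Agent.H774.IS
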