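import Pool.Agent.H774.IS.Core

/-!
# Coordinates adapted to a pair of symmetries
-/

set_option autoImplicit false

open Finset

namespace Pool.Agent.H774.IS

open Pool.Agent.Y387.SF

variable {V : Type*} [NormedAddCommGroup V] [InnerProductSpace ℂ V] [FiniteDimensional ℂ V]
  {ι : Type*} [Fintype ι] {x : ι → V} {p : ℕ} [hp : Fact p.Prime]

/-- different displaced vectors span different lines -/
theorem Dv_line {χ : AddChar (ZMod p) ℂ} {ψ : ZMod p → ℂ} (h : IsSol χ ψ (cj ψ))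
    {r s : ZMod p × ZMod p} {c : ℂ} (hc : ‖c‖ = 1)
    (hrs : Dv χ ψ r.1 r.2 = c • Dv χ ψ s.1 s.2) : r = s := by
  by_contra hne
  have h1 := inner_Dv χ ψ s r
  rw [hrs, inner_smul_right, inner_Dv] at h1
  simp only [sub_self, zero_mul, AddChar.map_zero_eq_one, one_mul] at h1
  have h00 : cc χ ψ (cj ψ) 0 0 = 1 := by
    rw [← h.one]
    unfold cc
    simp
  rw [h00, mul_one] at h1
  have h2 : r.1 - s.1 ≠ 0 ∨ r.2 - s.2 ≠ 0 := by
    by_contra hcon
    push Not at hcon
    exact hne (Prod.ext (sub_eq_zero.1 hcon.1) (sub_eq_zero.1 hcon.2))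
  have h3 := h.mul _ _ h2
  rw [cc_mul_cd] at h3
  have h4 := congrArg norm h1
  rw [norm_mul, hc, χ.norm_apply, one_mul] at h4
  rw [← h4] at h3
  have h5 : (1 : ℂ) = ((p : ℂ) + 1)⁻¹ := by simpa using h3
  have h6 : ((p : ℂ) + 1) = 1 := by
    rw [← inv_inj, ← h5, inv_one]
  have h7 : (p : ℂ) = 0 := by linear_combination h6
  have h8 : p = 0 := by exact_mod_cast h7
  have := hp.out.pos
  omega

/-- coordinates adapted to a pair of symmetries that commute up to a root of unity -/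
theorem fid_pair (h : IsEtf p x) (hcard : Fintype.card ι = p ^ 2)
    (hV : Module.finrank ℂ V = p) {A B : V ≃ₗᵢ[ℂ] V} {α β : Equiv.Perm ι} {ζ : ℂ}
    (hA : Ind x A α) (hB : Ind x B β) (hζ : ζ ≠ 1) (hζp : ζ ^ p = 1)
    (hAB : ∀ v, A (B v) = ζ • B (A v)) :
    ∃ (χ : AddChar (ZMod p) ℂ) (ψ : ZMod p → ℂ) (T : V ≃ₗᵢ[ℂ] EuclideanSpace ℂ (ZMod p))
      (σ : ι ≃ ZMod p × ZMod p), χ ≠ 1 ∧ IsSol χ ψ (cj ψ) ∧
      (∀ k, ∃ c : ℂ, ‖c‖ = 1 ∧ T (x k) = c • Dv χ ψ (σ k).1 (σ k).2) ∧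
      (∀ k, σ (α k) = σ k + (0, 1)) ∧ (∀ k, σ (β k) = σ k + (1, 0)) := by
  classical
  obtain ⟨e, l, m, hl, hm, hAe, hBe⟩ := svn hV A B hζ hζp hAB
  have hp0 : NeZero p := ⟨hp.out.ne_zero⟩
  set χ : AddChar (ZMod p) ℂ := AddChar.zmodChar p hζp with hχdef
  have hχv : ∀ j, χ j = ζ ^ j.val := fun j => AddChar.zmodChar_apply hζp j
  have hχ : χ ≠ 1 := by
    intro h0
    apply hζ
    have h1 := congrArg (fun f : AddChar (ZMod p) ℂ => f 1) h0
    simp only [AddChar.one_apply] at h1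
    rw [hχv, ZMod.val_one, pow_one] at h1
    exact h1
  have hcm : ∀ z : ℂ, ‖z‖ = 1 → z * (starRingEnd ℂ) z = 1 := by
    intro z hz
    rw [Complex.mul_conj, Complex.normSq_eq_norm_sq, hz]
    simp
  have hχn : ∀ j, ‖χ j‖ = 1 := fun j => χ.norm_apply j
  have hTA : ∀ v j, e.repr (A v) j = l * χ j * e.repr v j := by
    intro v j
    rw [e.repr_apply_apply, e.repr_apply_apply, ← A.inner_map_map (e j) v, hAe, inner_smul_left,
      ← hχv, ← mul_assoc, hcm _ (by rw [norm_mul, hl, hχn, one_mul]), one_mul]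
  have hTB : ∀ v j, e.repr (B v) j = m * e.repr v (j - 1) := by
    intro v j
    rw [e.repr_apply_apply, e.repr_apply_apply, ← B.inner_map_map (e (j - 1)) v, hBe,
      inner_smul_left, sub_add_cancel, ← mul_assoc, hcm _ hm, one_mul]
  have hTAn : ∀ (n : ℕ) v j, e.repr ((A ^ n) v) j = l ^ n * χ (n * j) * e.repr v j := by
    intro n
    induction n with
    | zero => intro v j; simp
    | succ n ih =>
      intro v j
      have h1 : (A ^ (n + 1)) v = (A ^ n) (A v) := by rw [pow_succ]; rfl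
      have h2 : χ ((n + 1 : ℕ) * j) = χ (n * j) * χ j := by
        rw [← AddChar.map_add_eq_mul]
        congr 1
        push_cast
        ring
      rw [h1, ih, hTA, h2]
      ring
  have hTBn : ∀ (n : ℕ) v j, e.repr ((B ^ n) v) j = m ^ n * e.repr v (j - n) := by
    intro n
    induction n with
    | zero => intro v j; simp
    | succ n ih =>
      intro v j
      have h1 : (B ^ (n + 1)) v = (B ^ n) (B v) := by rw [pow_succ]; rfl
      have h2 : j - ((n + 1 : ℕ) : ZMod p) = j - n - 1 := by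
        push_cast
        ring
      rw [h1, ih, hTB, h2]
      ring
  have hne : Nonempty ι := by
    rw [← Fintype.card_pos_iff, hcard]
    have := hp.out.pos
    positivity
  obtain ⟨i₀⟩ := hne
  set ψ : ZMod p → ℂ := fun j => e.repr (x i₀) j with hψ
  set π : ZMod p × ZMod p → Equiv.Perm ι := fun r => α ^ r.2.val * β ^ r.1.val with hπ
  have himg : ∀ r : ZMod p × ZMod p, ∃ c : ℂ, ‖c‖ = 1 ∧
      e.repr (x (π r i₀)) = c • Dv χ ψ r.1 r.2 := by
    intro r
    have h1 := (hA.pow r.2.val).mul (hB.pow r.1.val)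
    obtain ⟨c, hc⟩ := h1 i₀
    have hc1 := ind_norm h hc
    have hc0 : c ≠ 0 := by
      rintro rfl
      simp at hc1
    refine ⟨c⁻¹ * (l ^ r.2.val * m ^ r.1.val), ?_, ?_⟩
    · rw [norm_mul, norm_mul, norm_inv, norm_pow, norm_pow, hc1, hl, hm]
      simp
    · have h2 : x (π r i₀) = c⁻¹ • (A ^ r.2.val * B ^ r.1.val) (x i₀) := by
        rw [hc, smul_smul, inv_mul_cancel₀ hc0, one_smul]
      rw [h2, map_smul]
      ext j
      have h3 : (A ^ r.2.val * B ^ r.1.val) (x i₀) = (A ^ r.2.val) ((B ^ r.1.val) (x i₀)) := rfl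
      rw [h3, PiLp.smul_apply, PiLp.smul_apply, hTAn, hTBn, Dv_apply, ZMod.natCast_zmod_val,
        ZMod.natCast_zmod_val, smul_eq_mul, smul_eq_mul]
      ring
  have hinn : ∀ r s : ZMod p × ZMod p, ‖inner ℂ (x (π s i₀)) (x (π r i₀))‖ =
      ‖cc χ ψ (cj ψ) (r.1 - s.1) (r.2 - s.2)‖ := by
    intro r s
    obtain ⟨c, hc, hc'⟩ := himg r
    obtain ⟨d, hd, hd'⟩ := himg s
    rw [← e.repr.inner_map_map, hc', hd', inner_smul_left, inner_smul_right, inner_Dv, norm_mul,
      norm_mul, norm_mul, hχn, hc, RCLike.norm_conj, hd, one_mul, one_mul, one_mul]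
  have hone : ∑ j, ψ j * (cj ψ) j = 1 := by
    have h1 : inner ℂ (Dv χ ψ (0 : ZMod p × ZMod p).1 (0 : ZMod p × ZMod p).2)
        (Dv χ ψ (0 : ZMod p × ZMod p).1 (0 : ZMod p × ZMod p).2) = 1 := by
      obtain ⟨c, hc, hc'⟩ := himg 0
      have h2 := e.repr.inner_map_map (x (π 0 i₀)) (x (π 0 i₀))
      rw [hc', inner_smul_left, inner_smul_right, h.inner_self, ← mul_assoc,
        mul_comm _ c, hcm c hc, one_mul] at h2
      exact h2
    rw [inner_Dv] at h1
    simp only [sub_self, zero_mul, AddChar.map_zero_eq_one, one_mul] at h1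
    rw [← h1]
    unfold cc
    simp
  have hsol : IsSol χ ψ (cj ψ) := by
    apply isSol_of_bound hχ ψ hone
    intro a b _
    have h1 := hinn (a, b) 0
    simp only [Prod.fst_zero, Prod.snd_zero, sub_zero] at h1
    rw [← h1]
    by_cases hk : π 0 i₀ = π (a, b) i₀
    · rw [← hk, h.inner_self, norm_one, one_pow]
      apply inv_le_one_of_one_le₀
      have : (0 : ℝ) ≤ p := by positivity
      linarith
    · rw [h.ang _ _ hk, div_pow, one_pow, Real.sq_sqrt (by positivity), one_div]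
  have hinj : Function.Injective fun r => π r i₀ := by
    intro r s hrs
    simp only at hrs
    obtain ⟨c, hc, hc'⟩ := himg r
    obtain ⟨d, hd, hd'⟩ := himg s
    rw [hrs] at hc'
    have hc0 : c ≠ 0 := by rintro rfl; simp at hc
    apply Dv_line hsol (c := c⁻¹ * d) (by rw [norm_mul, norm_inv, hc, hd]; simp)
    rw [mul_smul, ← hd', hc', smul_smul, inv_mul_cancel₀ hc0, one_smul]
  have hbij : Function.Bijective fun r => π r i₀ := by
    rw [Fintype.bijective_iff_injective_and_card]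
    refine ⟨hinj, ?_⟩
    rw [hcard, Fintype.card_prod, ZMod.card, sq]
  set σ : ι ≃ ZMod p × ZMod p := (Equiv.ofBijective _ hbij).symm with hσ
  have hσa : ∀ k, π (σ k) i₀ = k := fun k => (Equiv.ofBijective _ hbij).apply_symm_apply k
  have hT : ∀ k, ∃ c : ℂ, ‖c‖ = 1 ∧ e.repr (x k) = c • Dv χ ψ (σ k).1 (σ k).2 := by
    intro k
    have h1 := himg (σ k)
    rwa [hσa] at h1
  refine ⟨χ, ψ, e.repr, σ, hχ, hsol, hT, fun k => ?_, fun k => ?_⟩
  · obtain ⟨c, hc, hc'⟩ := hT k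
    obtain ⟨d, hd, hd'⟩ := hT (α k)
    obtain ⟨a, ha⟩ := hA k
    have ha1 := ind_norm h ha
    have ha0 : a ≠ 0 := by rintro rfl; simp at ha1
    have hd0 : d ≠ 0 := by rintro rfl; simp at hd
    apply Dv_line hsol (c := d⁻¹ * (a⁻¹ * (l * c)))
      (by rw [norm_mul, norm_mul, norm_mul, norm_inv, norm_inv, hd, ha1, hl, hc]; simp)
    have h1 : e.repr (x (α k)) = (a⁻¹ * (l * c)) • Dv χ ψ (σ k + (0, 1)).1 (σ k + (0, 1)).2 := by
      have h2 : x (α k) = a⁻¹ • A (x k) := by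
        rw [ha, smul_smul, inv_mul_cancel₀ ha0, one_smul]
      rw [h2, map_smul]
      ext j
      rw [PiLp.smul_apply, PiLp.smul_apply, hTA, hc', PiLp.smul_apply, Dv_apply, Dv_apply,
        smul_eq_mul, smul_eq_mul, smul_eq_mul]
      have h3 : χ ((σ k + (0, 1)).2 * j) = χ ((σ k).2 * j) * χ j := by
        rw [← AddChar.map_add_eq_mul]
        congr 1
        simp only [Prod.snd_add]
        ring
      have h4 : (σ k + (0, 1)).1 = (σ k).1 := by simp
      rw [h3, h4]
      ring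
    rw [mul_smul, ← h1, hd', smul_smul, inv_mul_cancel₀ hd0, one_smul]
  · obtain ⟨c, hc, hc'⟩ := hT k
    obtain ⟨d, hd, hd'⟩ := hT (β k)
    obtain ⟨a, ha⟩ := hB k
    have ha1 := ind_norm h ha
    have ha0 : a ≠ 0 := by rintro rfl; simp at ha1
    have hd0 : d ≠ 0 := by rintro rfl; simp at hd
    apply Dv_line hsol (c := d⁻¹ * (a⁻¹ * (m * c * χ (-(σ k).2))))
      (by rw [norm_mul, norm_mul, norm_mul, norm_mul, norm_inv, norm_inv, hd, ha1, hm, hc, hχn]
          simp)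
    have h1 : e.repr (x (β k)) = (a⁻¹ * (m * c * χ (-(σ k).2))) •
        Dv χ ψ (σ k + (1, 0)).1 (σ k + (1, 0)).2 := by
      have h2 : x (β k) = a⁻¹ • B (x k) := by
        rw [ha, smul_smul, inv_mul_cancel₀ ha0, one_smul]
      rw [h2, map_smul]
      ext j
      rw [PiLp.smul_apply, PiLp.smul_apply, hTB, hc', PiLp.smul_apply, Dv_apply, Dv_apply,
        smul_eq_mul, smul_eq_mul, smul_eq_mul]
      have h3 : χ ((σ k).2 * (j - 1)) = χ (-(σ k).2) * χ ((σ k + (1, 0)).2 * j) := by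
        rw [← AddChar.map_add_eq_mul]
        congr 1
        simp only [Prod.snd_add, add_zero]
        ring
      have h4 : j - 1 - (σ k).1 = j - (σ k + (1, 0)).1 := by
        simp only [Prod.fst_add]
        ring
      rw [h3, h4]
      ring
    rw [mul_smul, ← h1, hd', smul_smul, inv_mul_cancel₀ hd0, one_smul]

end Pool.Agent.H774.IS
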